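import Pool.Agent.LKR.Defs
import Pool.Agent.LKH.Defs
import Pool.Agent.KNH.LonM

/-!
# LKR/Crd: the half plane, the axis and the ring in the sphere
-/

open scoped Manifold ContDiff Topology
open Set Filter
open Complex (I)
open Pool.Agent.RSG (E4 S3 pS3 ex)
open Pool.Agent.CLG
open Pool.Agent.KNH (Hat)

namespace Pool.Agent.LKR

theorem crd0 (q : ℂ × ℝ) : (io q : E4) 0 = 2 * q.1.re / (‖q.1‖ ^ 2 + q.2 ^ 2 + 1) := by rw [io_coe]; rfl
theorem crd1 (q : ℂ × ℝ) : (io q : E4) 1 = 2 * q.1.im / (‖q.1‖ ^ 2 + q.2 ^ 2 + 1) := by rw [io_coe]; rfl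
theorem crd2 (q : ℂ × ℝ) : (io q : E4) 2 = (‖q.1‖ ^ 2 + q.2 ^ 2 - 1) / (‖q.1‖ ^ 2 + q.2 ^ 2 + 1) := by
  rw [io_coe]; rfl
theorem crd3 (q : ℂ × ℝ) : (io q : E4) 3 = 2 * q.2 / (‖q.1‖ ^ 2 + q.2 ^ 2 + 1) := by rw [io_coe]; rfl
theorem crd3' (q : ℂ × ℝ) : (io' q : E4) 3 = 2 * q.2 / (‖q.1‖ ^ 2 + q.2 ^ 2 + 1) := by rw [io'_coe]; rfl

theorem pol0 : (pol : E4) 0 = 0 := by rw [pol_coe]; rfl
theorem pol1 : (pol : E4) 1 = 0 := by rw [pol_coe]; rfl
theorem pol2 : (pol : E4) 2 = 1 := by rw [pol_coe]; rfl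
theorem pol3 : (pol : E4) 3 = 0 := by rw [pol_coe]; rfl

theorem io_pg (q : ℂ × ℝ) : io q ∈ Pg ↔ q ∈ LKH.Hp := by
  have hD := IOa_D q
  show ((io q : E4) 0 = 0 ∧ (io q : E4) 1 < 0) ↔ (q.1.re = 0 ∧ q.1.im < 0)
  rw [crd0, crd1, div_eq_zero_iff, div_lt_iff₀ hD, zero_mul]
  constructor
  · rintro ⟨h1, h2⟩
    refine ⟨?_, by linarith⟩
    rcases h1 with h | h
    · linarith
    · exact absurd h hD.ne'
  · rintro ⟨h1, h2⟩
    exact ⟨Or.inl (by rw [h1, mul_zero]), by linarith⟩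

theorem pol_pg : pol ∉ Pg := by
  rintro ⟨-, h⟩
  rw [pol1] at h
  exact lt_irrefl _ h

theorem hatU_iff (x : S3) : x ∈ Hat KNT.U ↔ (x : E4) 0 = 0 ∧ (x : E4) 1 = 0 := by
  constructor
  · rintro (rfl | ⟨q, hq, rfl⟩)
    · exact ⟨pol0, pol1⟩
    · have hq' : q.1 = 0 := hq
      rw [crd0, crd1, hq']
      simp
  · rintro ⟨h0, h1⟩
    by_cases hx : x = pol
    · exact Or.inl hx
    · refine Or.inr ⟨oi x, ?_, io_oi hx⟩
      show (oi x).1 = 0
      have e0 : (io (oi x) : E4) 0 = 0 := by rw [io_oi hx]; exact h0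
      have e1 : (io (oi x) : E4) 1 = 0 := by rw [io_oi hx]; exact h1
      have hD := (IOa_D (oi x)).ne'
      rw [crd0] at e0
      rw [crd1] at e1
      apply Complex.ext
      · rcases div_eq_zero_iff.1 e0 with h | h
        · show (oi x).1.re = 0
          linarith
        · exact absurd h hD
      · rcases div_eq_zero_iff.1 e1 with h | h
        · show (oi x).1.im = 0
          linarith
        · exact absurd h hD

theorem ring_iff (x : S3) : x ∈ io '' Og 1 ↔ (x : E4) 2 = 0 ∧ (x : E4) 3 = 0 := by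
  constructor
  · rintro ⟨q, ⟨h1, h2⟩, rfl⟩
    rw [crd2, crd3, h1, h2]
    norm_num
  · rintro ⟨h2, h3⟩
    have hx : x ≠ pol := by
      rintro rfl
      rw [pol2] at h2
      exact one_ne_zero h2
    refine ⟨oi x, ?_, io_oi hx⟩
    have e2 : (io (oi x) : E4) 2 = 0 := by rw [io_oi hx]; exact h2
    have e3 : (io (oi x) : E4) 3 = 0 := by rw [io_oi hx]; exact h3
    have hD := (IOa_D (oi x)).ne'
    rw [crd2] at e2
    rw [crd3] at e3
    have h4 : (oi x).2 = 0 := by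
      rcases div_eq_zero_iff.1 e3 with h | h
      · linarith
      · exact absurd h hD
    refine ⟨?_, h4⟩
    rcases div_eq_zero_iff.1 e2 with h | h
    · rw [h4] at h
      have h5 : ‖(oi x).1‖ ^ 2 = 1 := by linarith
      have h6 := norm_nonneg (oi x).1
      nlinarith
    · exact absurd h hD

/-- points of the plane `h = 0` outside of the ring -/
theorem io_ext {w : ℂ} (h : 1 ≤ ‖w‖) : io (w, 0) ∈ io '' Og 1 ∨ io (w, 0) ∈ Pe := by
  rcases h.eq_or_lt with h | h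
  · exact Or.inl ⟨(w, 0), ⟨h.symm, rfl⟩, rfl⟩
  · right
    have hD := IOa_D (w, (0 : ℝ))
    show (io (w, 0) : E4) 3 = 0 ∧ 0 < (io (w, 0) : E4) 2
    rw [crd3, crd2]
    refine ⟨by simp, div_pos ?_ hD⟩
    show 0 < ‖w‖ ^ 2 + 0 ^ 2 - 1
    nlinarith

theorem io_plane (w : ℂ) : (io (w, 0) : E4) 3 = 0 := by
  rw [crd3]
  simp

theorem hat_compl {A : Set (ℂ × ℝ)} {x : S3} (hx : x ∉ Hat A) : ∃ q, q ∉ A ∧ io q = x := by
  have h1 : x ≠ pol := fun h => hx (Or.inl h)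
  exact ⟨oi x, fun h => hx (Or.inr ⟨_, h, io_oi h1⟩), io_oi h1⟩

end Pool.Agent.LKR
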