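import Pool.Agent.LKH.Defs
import Pool.Agent.CLG.LnD

/-!
# LKR/Defs: re-basing and splitting, definitions

`Hc`: the closed half plane (`U ∪ Hp`).  `Og R`: the ring of radius `R` in the plane `h = 0`.
`Ps t`: the point `w = i t`, `h = 0`.
`Pg`, `Pe`: the half plane `Hp` in the sphere, and the exterior of the ring `Og 1` in the plane `h = 0`, with the point `pol`.
-/

open scoped ContDiff Topology
open Set Filter
open Complex (I)
open Pool.Agent.RSG (E4 S3)

namespace Pool.Agent.LKR

/-- the closed half plane -/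
def Hc : Set (ℂ × ℝ) := {q | q.1.re = 0 ∧ q.1.im ≤ 0}

/-- the ring of radius `R` -/
def Og (R : ℝ) : Set (ℂ × ℝ) := {q | ‖q.1‖ = R ∧ q.2 = 0}

/-- the point on the opposite half plane -/
noncomputable def Ps (t : ℝ) : ℂ × ℝ := ((t : ℂ) * I, 0)

/-- the half plane in the sphere -/
def Pg : Set S3 := {x | (x : E4) 0 = 0 ∧ (x : E4) 1 < 0}

/-- the exterior of the ring -/
def Pe : Set S3 := {x | (x : E4) 3 = 0 ∧ 0 < (x : E4) 2}

end Pool.Agent.LKR
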