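import Pool.Agent.LKF.Def3
import Pool.Agent.KNT.Cdm

/-!
# LKR/Far: the moves of a `PEq` have bounded support
-/

open scoped ContDiff Topology
open Set Filter
open Pool.Agent.KNT (Dom BalC Tubes Str Str2 CD)
open Pool.Agent.LKF

namespace Pool.Agent.LKR

theorem far_disj {b : ℂ × ℝ → ℂ × ℝ} {R : ℝ} (hR : ∀ q ∈ Dom, ‖b q‖ ≤ R) {C : Set (ℂ × ℝ)}
    (hC : ∀ q ∈ C, R < ‖q‖) : Disjoint C (b '' Dom) := by
  rw [Set.disjoint_left]
  rintro _ hx ⟨q, hq, rfl⟩
  exact absurd (hC _ hx) (not_lt.2 (hR q hq))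

/-- Everything which is far away may be added. -/
theorem far {A B A' B' : Set (ℂ × ℝ)} (h : PEq A B A' B') :
    ∃ R₀ : ℝ, ∀ C : Set (ℂ × ℝ), (∀ q ∈ C, R₀ < ‖q‖) → PEq A (B ∪ C) A' (B' ∪ C) := by
  induction h with
  | refl A B => exact ⟨0, fun C _ => PEq.refl _ _⟩
  | symm _ ih =>
    obtain ⟨R, hR⟩ := ih
    exact ⟨R, fun C hC => (hR C hC).symm⟩
  | trans _ _ ih1 ih2 =>
    obtain ⟨R, hR⟩ := ih1
    obtain ⟨R', hR'⟩ := ih2
    refine ⟨max R R', fun C hC => (hR C fun q hq => ?_).trans (hR' C fun q hq => ?_)⟩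
    · exact (le_max_left _ _).trans_lt (hC q hq)
    · exact (le_max_right _ _).trans_lt (hC q hq)
  | diff A B hF =>
    rename_i F
    obtain ⟨K, hK, -, hFK⟩ := hF.supp
    obtain ⟨R, hR⟩ := hK.isBounded.subset_closedBall 0
    refine ⟨R, fun C hC => ?_⟩
    have hfix : ∀ x ∈ C, F x = x := fun x hx => hFK x fun hxK => by
      have h1 := hR hxK
      rw [mem_closedBall_zero_iff] at h1
      exact absurd (hC x hx) (not_lt.2 h1)
    have hFC : F '' C = C := by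
      ext x
      constructor
      · rintro ⟨y, hy, rfl⟩
        rw [hfix y hy]
        exact hy
      · intro hx
        exact ⟨x, hx, hfix x hx⟩
    have h1 := PEq.diff A (B ∪ C) hF
    rwa [image_union, hFC] at h1
  | four hb hbd hZ hB =>
    rename_i Z B b
    obtain ⟨R, hR⟩ := hbd
    refine ⟨R, fun C hC => PEq.four hb ⟨R, hR⟩ hZ ?_⟩
    exact disjoint_union_left.2 ⟨hB, far_disj hR hC⟩
  | rib hb hbd hZ hB =>
    rename_i Z B b
    obtain ⟨R, hR⟩ := hbd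
    refine ⟨R, fun C hC => PEq.rib hb ⟨R, hR⟩ hZ fun l hl => ?_⟩
    exact disjoint_union_left.2 ⟨hB l hl, far_disj (hR l hl) hC⟩
  | _ =>
    rename_i A B b c hm
    obtain ⟨R, hR⟩ := hm.bdb
    obtain ⟨R', hR'⟩ := hm.bdc
    refine ⟨max R R', fun C hC => ?_⟩
    have hC1 : ∀ q ∈ C, R < ‖q‖ := fun q hq => (le_max_left _ _).trans_lt (hC q hq)
    have hC2 : ∀ q ∈ C, R' < ‖q‖ := fun q hq => (le_max_right _ _).trans_lt (hC q hq)
    have hM : Mut (A ∪ (B ∪ C)) b c := by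
      refine ⟨hm.tub, hm.bal, hm.bdb, hm.bdc, fun l hl => ?_, ?_, hm.ends, hm.ds0, hm.ds1⟩
      · rw [← union_assoc]
        exact disjoint_union_left.2 ⟨hm.dsb l hl, far_disj (hR l hl) hC1⟩
      · rw [← union_assoc]
        exact disjoint_union_left.2 ⟨hm.dsc, far_disj hR' hC2⟩
    have h1 := PEq.mut hM
    have e : ∀ S T : Set (ℂ × ℝ), B ∪ C ∪ S ∪ T = B ∪ S ∪ T ∪ C := by
      intro S T
      ext x
      simp only [mem_union]
      tauto
    rwa [e, e] at h1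

end Pool.Agent.LKR
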