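import Pool.Agent.LKR.Defs
import Pool.Agent.CLG.LDi

/-!
# LKR/LinP: a diffeo of `S3` which carries the half plane to the exterior of the ring
-/

open scoped Manifold ContDiff Topology
open Set Filter
open Pool.Agent.RSG
open Pool.Agent.CLG

namespace Pool.Agent.LKR

section
variable (p v : E4)

noncomputable def linp_c3 (x : E4) : ℝ := x 0 / v 0
noncomputable def linp_c2 (x : E4) : ℝ := (x 1 - x 0 / v 0 * v 1) / p 1

noncomputable def linp_f (x : E4) : E4 :=
  WithLp.toLp 2 ![x 2 - linp_c2 p v x * p 2 - linp_c3 v x * v 2, x 3 - linp_c2 p v x * p 3 - linp_c3 v x * v 3,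
    linp_c2 p v x, 2 * Real.pi * linp_c3 v x]

noncomputable def linp_g (y : E4) : E4 :=
  WithLp.toLp 2 ![y 3 / (2 * Real.pi) * v 0, y 2 * p 1 + y 3 / (2 * Real.pi) * v 1,
    y 0 + y 2 * p 2 + y 3 / (2 * Real.pi) * v 2, y 1 + y 2 * p 3 + y 3 / (2 * Real.pi) * v 3]

theorem linp_f0 (x : E4) : linp_f p v x 0 = x 2 - linp_c2 p v x * p 2 - linp_c3 v x * v 2 := rfl
theorem linp_f1 (x : E4) : linp_f p v x 1 = x 3 - linp_c2 p v x * p 3 - linp_c3 v x * v 3 := rfl
theorem linp_f2 (x : E4) : linp_f p v x 2 = linp_c2 p v x := rfl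
theorem linp_f3 (x : E4) : linp_f p v x 3 = 2 * Real.pi * linp_c3 v x := rfl
theorem linp_g0 (y : E4) : linp_g p v y 0 = y 3 / (2 * Real.pi) * v 0 := rfl
theorem linp_g1 (y : E4) : linp_g p v y 1 = y 2 * p 1 + y 3 / (2 * Real.pi) * v 1 := rfl
theorem linp_g2 (y : E4) : linp_g p v y 2 = y 0 + y 2 * p 2 + y 3 / (2 * Real.pi) * v 2 := rfl
theorem linp_g3 (y : E4) : linp_g p v y 3 = y 1 + y 2 * p 3 + y 3 / (2 * Real.pi) * v 3 := rfl

variable {p v}

theorem linp_ext {x y : E4} (h0 : x 0 = y 0) (h1 : x 1 = y 1) (h2 : x 2 = y 2) (h3 : x 3 = y 3) : x = y := by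
  ext i
  fin_cases i
  · exact h0
  · exact h1
  · exact h2
  · exact h3

theorem linp_gf (h1 : p 1 ≠ 0) (hv : v 0 ≠ 0) (x : E4) : linp_g p v (linp_f p v x) = x := by
  have hpi := Real.pi_ne_zero
  have e3 : 2 * Real.pi * linp_c3 v x / (2 * Real.pi) = linp_c3 v x := by field_simp
  have a1 : linp_c3 v x * v 0 = x 0 := by unfold linp_c3; field_simp
  have a2 : linp_c2 p v x * p 1 + linp_c3 v x * v 1 = x 1 := by unfold linp_c2 linp_c3; field_simp; ring
  refine linp_ext ?_ ?_ ?_ ?_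
  · rw [linp_g0, linp_f3, e3, a1]
  · rw [linp_g1, linp_f3, linp_f2, e3, a2]
  · rw [linp_g2, linp_f3, linp_f2, linp_f0, e3]; ring
  · rw [linp_g3, linp_f3, linp_f2, linp_f1, e3]; ring

theorem linp_fg (h1 : p 1 ≠ 0) (hv : v 0 ≠ 0) (y : E4) : linp_f p v (linp_g p v y) = y := by
  have hpi := Real.pi_ne_zero
  have a3 : linp_c3 v (linp_g p v y) = y 3 / (2 * Real.pi) := by
    unfold linp_c3
    rw [linp_g0]
    field_simp
  have a2 : linp_c2 p v (linp_g p v y) = y 2 := by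
    unfold linp_c2
    rw [linp_g0, linp_g1]
    field_simp
    ring
  refine linp_ext ?_ ?_ ?_ ?_
  · rw [linp_f0, linp_g2, a2, a3]; ring
  · rw [linp_f1, linp_g3, a2, a3]; ring
  · rw [linp_f2, a2]
  · rw [linp_f3, a3]; field_simp

theorem exists_page (h0 : p 0 = 0) (h1 : p 1 < 0) (hv : v 0 ≠ 0) : ∃ L : E4 ≃L[ℝ] E4,
    L p = LDi_e2 ∧ L v = LDi_e3 ∧ (∀ x, (x 0 = 0 ∧ x 1 = 0) ↔ ((L x) 2 = 0 ∧ (L x) 3 = 0)) ∧
      ∀ x, (x 0 = 0 ∧ x 1 < 0) ↔ ((L x) 3 = 0 ∧ 0 < (L x) 2) := by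
  have hpi := Real.pi_pos
  let L : E4 ≃ₗ[ℝ] E4 :=
    { toFun := linp_f p v
      invFun := linp_g p v
      left_inv := linp_gf h1.ne hv
      right_inv := linp_fg h1.ne hv
      map_add' := by
        intro x y
        have a3 : linp_c3 v (x + y) = linp_c3 v x + linp_c3 v y := by
          show (x 0 + y 0) / v 0 = x 0 / v 0 + y 0 / v 0
          ring
        have a2 : linp_c2 p v (x + y) = linp_c2 p v x + linp_c2 p v y := by
          show (x 1 + y 1 - (x 0 + y 0) / v 0 * v 1) / p 1 = (x 1 - x 0 / v 0 * v 1) / p 1 + (y 1 - y 0 / v 0 * v 1) / p 1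
          ring
        refine linp_ext ?_ ?_ ?_ ?_
        · show x 2 + y 2 - linp_c2 p v (x + y) * p 2 - linp_c3 v (x + y) * v 2 =
            (x 2 - linp_c2 p v x * p 2 - linp_c3 v x * v 2) + (y 2 - linp_c2 p v y * p 2 - linp_c3 v y * v 2)
          rw [a2, a3]; ring
        · show x 3 + y 3 - linp_c2 p v (x + y) * p 3 - linp_c3 v (x + y) * v 3 =
            (x 3 - linp_c2 p v x * p 3 - linp_c3 v x * v 3) + (y 3 - linp_c2 p v y * p 3 - linp_c3 v y * v 3)
          rw [a2, a3]; ring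
        · show linp_c2 p v (x + y) = linp_c2 p v x + linp_c2 p v y
          exact a2
        · show 2 * Real.pi * linp_c3 v (x + y) = 2 * Real.pi * linp_c3 v x + 2 * Real.pi * linp_c3 v y
          rw [a3]; ring
      map_smul' := by
        intro c x
        have a3 : linp_c3 v (c • x) = c * linp_c3 v x := by
          show (c * x 0) / v 0 = c * (x 0 / v 0)
          ring
        have a2 : linp_c2 p v (c • x) = c * linp_c2 p v x := by
          show (c * x 1 - (c * x 0) / v 0 * v 1) / p 1 = c * ((x 1 - x 0 / v 0 * v 1) / p 1)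
          ring
        refine linp_ext ?_ ?_ ?_ ?_
        · show c * x 2 - linp_c2 p v (c • x) * p 2 - linp_c3 v (c • x) * v 2 =
            c * (x 2 - linp_c2 p v x * p 2 - linp_c3 v x * v 2)
          rw [a2, a3]; ring
        · show c * x 3 - linp_c2 p v (c • x) * p 3 - linp_c3 v (c • x) * v 3 =
            c * (x 3 - linp_c2 p v x * p 3 - linp_c3 v x * v 3)
          rw [a2, a3]; ring
        · show linp_c2 p v (c • x) = c * linp_c2 p v x
          exact a2
        · show 2 * Real.pi * linp_c3 v (c • x) = c * (2 * Real.pi * linp_c3 v x)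
          rw [a3]; ring }
  have hL : ∀ x, L.toContinuousLinearEquiv x = linp_f p v x := fun x => rfl
  refine ⟨L.toContinuousLinearEquiv, ?_, ?_, ?_, ?_⟩
  · rw [hL]
    have a3 : linp_c3 v p = 0 := by unfold linp_c3; rw [h0, zero_div]
    have a2 : linp_c2 p v p = 1 := by
      unfold linp_c2
      rw [h0, zero_div, zero_mul, sub_zero, div_self h1.ne]
    refine linp_ext ?_ ?_ ?_ ?_
    · rw [linp_f0, a2, a3]; show _ = (0 : ℝ); ring
    · rw [linp_f1, a2, a3]; show _ = (0 : ℝ); ring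
    · rw [linp_f2, a2]; rfl
    · rw [linp_f3, a3]; show _ = (0 : ℝ); ring
  · rw [hL]
    have a3 : linp_c3 v v = 1 := by unfold linp_c3; exact div_self hv
    have a2 : linp_c2 p v v = 0 := by
      unfold linp_c2
      rw [div_self hv, one_mul, sub_self, zero_div]
    refine linp_ext ?_ ?_ ?_ ?_
    · rw [linp_f0, a2, a3]; show _ = (0 : ℝ); ring
    · rw [linp_f1, a2, a3]; show _ = (0 : ℝ); ring
    · rw [linp_f2, a2]; rfl
    · rw [linp_f3, a3]; show _ = 2 * Real.pi; ring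
  · intro x
    rw [hL, linp_f2, linp_f3]
    constructor
    · rintro ⟨b0, b1⟩
      unfold linp_c2 linp_c3
      rw [b0, b1]
      simp
    · rintro ⟨b2, b3⟩
      have b0 : x 0 = 0 := by
        have : linp_c3 v x = 0 := (mul_eq_zero.1 b3).resolve_left (by positivity)
        exact (div_eq_zero_iff.1 this).resolve_right hv
      refine ⟨b0, ?_⟩
      unfold linp_c2 at b2
      rw [b0, zero_div, zero_mul, sub_zero] at b2
      exact (div_eq_zero_iff.1 b2).resolve_right h1.ne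
  · intro x
    rw [hL, linp_f2, linp_f3]
    constructor
    · rintro ⟨b0, b1⟩
      unfold linp_c2 linp_c3
      rw [b0, zero_div, mul_zero, zero_mul, sub_zero]
      exact ⟨rfl, div_pos_of_neg_of_neg b1 h1⟩
    · rintro ⟨b3, b2⟩
      have b0 : x 0 = 0 := by
        have : linp_c3 v x = 0 := (mul_eq_zero.1 b3).resolve_left (by positivity)
        exact (div_eq_zero_iff.1 this).resolve_right hv
      refine ⟨b0, ?_⟩
      unfold linp_c2 at b2
      rw [b0, zero_div, zero_mul, sub_zero] at b2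
      by_contra hc
      exact absurd b2 (not_lt.2 (div_nonpos_of_nonneg_of_nonpos (not_lt.1 hc) h1.le))

end

theorem page_diffeo {K : ℝ → S3} (hK : EmbS K) (h0 : K 0 ∈ Pg)
    (hv : deriv (fun l => (K l : E4) 0) 0 ≠ 0) : ∃ Φ : S3 ≃ₘ⟮𝓡 3, 𝓡 3⟯ S3, Φ (K 0) = pol ∧
      HasDerivAt (fun l => (Φ (K l) : E4)) (WithLp.toLp 2 ![0, 0, 0, 2 * Real.pi]) 0 ∧
      (∀ x : S3, ((x : E4) 0 = 0 ∧ (x : E4) 1 = 0) ↔ ((Φ x : E4) 2 = 0 ∧ (Φ x : E4) 3 = 0)) ∧
      ∀ x : S3, x ∈ Pg ↔ Φ x ∈ Pe := by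
  have hF := Fact.mk (@finrank_euclideanSpace_fin ℝ _ (3 + 1))
  have hks : ContDiff ℝ ∞ fun l => (K l : E4) :=
    ((contMDiff_coe_sphere (n := 3) (m := ∞)).comp hK.smooth).contDiff
  obtain ⟨v, hv'⟩ : ∃ v, v = deriv (fun l => (K l : E4)) 0 := ⟨_, rfl⟩
  have hd : HasDerivAt (fun l => (K l : E4)) v 0 := by
    rw [hv']
    exact ((hks.differentiable (by simp)) 0).hasDerivAt
  have hv0 : v 0 ≠ 0 := by
    have h1 : HasDerivAt (fun l => (K l : E4) 0) (v 0) 0 :=
      (EuclideanSpace.proj (𝕜 := ℝ) (0 : Fin 4)).hasFDerivAt.comp_hasDerivAt (0 : ℝ) hd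
    rwa [h1.deriv] at hv
  obtain ⟨L, hL1, hL2, hL3, hL4⟩ := exists_page (p := (K 0 : E4)) (v := v) h0.1 h0.2 hv0
  obtain ⟨Φ, hΦ⟩ := lin_diffeo L
  have hpos : ∀ x : S3, 0 < ‖L (x : E4)‖⁻¹ := fun x => inv_pos.2 (norm_pos_iff.2 (LDi_Lne L x))
  have hc : ∀ (x : S3) (i : Fin 4), (Φ x : E4) i = ‖L (x : E4)‖⁻¹ * (L (x : E4)) i := by
    intro x i
    rw [hΦ]
    rfl
  refine ⟨Φ, ?_, ?_, ?_, ?_⟩
  · apply Subtype.ext
    rw [hΦ, hL1, LDi_norm, inv_one, one_smul, pol_coe]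
    rfl
  · have e : (fun l => (Φ (K l) : E4)) = fun l => ‖L (K l : E4)‖⁻¹ • L (K l : E4) :=
      funext fun l => hΦ (K l)
    rw [e]
    have h1 : HasDerivAt (fun l => L (K l : E4)) LDi_e3 0 := by
      have := (L : E4 →L[ℝ] E4).hasFDerivAt.comp_hasDerivAt (0 : ℝ) hd
      rw [← hL2]
      exact this
    have h2 : HasDerivAt (fun l => ‖L (K l : E4)‖ ^ 2) 0 0 := by
      have := h1.norm_sq
      rw [hL1, LDi_inner, mul_zero] at this
      exact this
    have h3 : HasDerivAt (fun l => ‖L (K l : E4)‖) 0 0 := by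
      have h4 := h2.sqrt (by rw [hL1, LDi_norm]; norm_num)
      rw [zero_div] at h4
      have h5 : (fun l => Real.sqrt (‖L (K l : E4)‖ ^ 2)) = fun l => ‖L (K l : E4)‖ :=
        funext fun l => Real.sqrt_sq (norm_nonneg _)
      rw [h5] at h4
      exact h4
    have h6 : HasDerivAt (fun l => ‖L (K l : E4)‖⁻¹) 0 0 := by
      have h7 := h3.inv (by rw [hL1, LDi_norm]; exact one_ne_zero)
      rw [neg_zero, zero_div] at h7
      exact h7
    have h8 := h6.smul h1
    rw [hL1, LDi_norm, inv_one, one_smul, zero_smul, add_zero] at h8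
    exact h8
  · intro x
    rw [hL3, hc, hc, mul_eq_zero, mul_eq_zero]
    simp [(hpos x).ne']
  · intro x
    have h1 := hL4 (x : E4)
    show ((x : E4) 0 = 0 ∧ (x : E4) 1 < 0) ↔ ((Φ x : E4) 3 = 0 ∧ 0 < (Φ x : E4) 2)
    rw [h1, hc, hc, mul_eq_zero, mul_pos_iff_of_pos_left (hpos x)]
    simp [(hpos x).ne']

end Pool.Agent.LKR
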