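import Pool.Agent.LKH.Gen
import Pool.Agent.KNT.Cdm

/-!
# LKR/LnC: elementary properties of finite unions of embedded circles
-/

open scoped ContDiff Topology
open Set Filter
open Pool.Agent.KNT (CD)
open Pool.Agent.LKH (LinkC)

namespace Pool.Agent.LKR

theorem linkC_compact {B : Set (ℂ × ℝ)} (h : LinkC B) : IsCompact B := by
  obtain ⟨n, c, hs, hp, -, -, rfl⟩ := h
  exact isCompact_iUnion fun i =>
    Function.Periodic.compact_of_continuous (hp i) one_ne_zero (hs i).continuous

theorem linkC_cover {B : Set (ℂ × ℝ)} (h : LinkC B) :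
    ∃ c : ℕ → ℝ → ℂ × ℝ, (∀ n, ContDiff ℝ ∞ (c n)) ∧ B ⊆ ⋃ n, range (c n) := by
  classical
  obtain ⟨n, c, hs, hp, -, -, rfl⟩ := h
  refine ⟨fun m => if h : m < n then c ⟨m, h⟩ else fun _ => 0, fun m => ?_, ?_⟩
  · show ContDiff ℝ ∞ (if h : m < n then c ⟨m, h⟩ else fun _ => 0)
    split_ifs with h
    · exact hs _
    · exact contDiff_const
  · refine iUnion_subset fun i => ?_
    intro x hx
    rw [mem_iUnion]
    refine ⟨i, ?_⟩
    show x ∈ range (if h : (i : ℕ) < n then c ⟨i, h⟩ else fun _ => 0)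
    rw [dif_pos i.2]
    exact hx

theorem linkC_image {B : Set (ℂ × ℝ)} (h : LinkC B) {O : Set (ℂ × ℝ)} {F : Equiv.Perm (ℂ × ℝ)} (hF : CD O F) :
    LinkC (F '' B) := by
  obtain ⟨n, c, hs, hp, hi, hj, rfl⟩ := h
  refine ⟨n, fun i t => F (c i t), fun i => hF.smooth.comp (hs i), fun i t => congrArg F (hp i t), ?_, ?_, ?_⟩
  · intro i t h0
    have h1 : HasDerivAt (c i) (deriv (c i) t) t := ((hs i).differentiable (by simp) t).hasDerivAt
    have h2 : HasFDerivAt F (fderiv ℝ F (c i t)) (c i t) :=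
      ((hF.smooth.differentiable (by simp)) _).hasFDerivAt
    have h3 : HasDerivAt (fun t => F (c i t)) (fderiv ℝ F (c i t) (deriv (c i) t)) t := h2.comp_hasDerivAt t h1
    rw [h3.deriv] at h0
    apply hi i t
    apply (hF.fderiv_bij (c i t)).1
    rw [h0, map_zero]
  · intro i j s t h0
    exact hj i j s t (F.injective h0)
  · rw [image_iUnion]
    congr 1
    ext1 i
    rw [← range_comp]
    rfl

end Pool.Agent.LKR
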