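import Pool.Agent.LKR.Trv
import Pool.Agent.LKF.Def2
import Pool.Agent.LKH.Gen

/-!
# LKR/Lnk: the components of a link which carries a property (LS) are embedded circles
-/

open scoped Manifold ContDiff Topology
open Set Filter
open Complex (I)
open Pool.Agent.RSG (E4 S3 pS3 ex)
open Pool.Agent.CLG (io oi pol EmbS)
open Pool.Agent.KNH (Hat rot)
open Pool.Agent.PTH (SP ISP)
open Pool.Agent.LKF
open Pool.Agent.LKH (LinkC)

namespace Pool.Agent.LKR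

/-- the core of an equivariant thick torus -/
theorem lnk_emb {κ : ℝ × ℂ × ℝ → SP} (h : RBM.ThickT ISP κ) {c : ℝ → S3} (hc : ∀ l, κ (l, 0, 0) = (c l, 1)) :
    EmbS c := by
  have hld : ∀ l : ℝ, IsLocalDiffeomorphAt 𝓘(ℝ, ℝ × ℂ × ℝ) ISP ∞ κ (l, 0, 0) := fun l => h.loc l 0 0 (by simp)
  have hj : ∀ l : ℝ, ContMDiffAt 𝓘(ℝ, ℝ) 𝓘(ℝ, ℝ × ℂ × ℝ) ∞ (fun l : ℝ => ((l, 0, 0) : ℝ × ℂ × ℝ)) l := fun l =>
    (contDiff_id.prodMk contDiff_const).contMDiff.contMDiffAt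
  have hcf : ∀ l, c l = (κ (l, 0, 0)).1 := fun l => by rw [hc]
  have hs : ContMDiff 𝓘(ℝ, ℝ) (𝓡 3) ∞ c := by
    intro l
    have h1 : ContMDiffAt 𝓘(ℝ, ℝ) ISP ∞ (fun l : ℝ => κ (l, 0, 0)) l :=
      ContMDiffAt.comp l (hld l).contMDiffAt (hj l)
    have h2 : ContMDiffAt 𝓘(ℝ, ℝ) (𝓡 3) ∞ (fun l : ℝ => (κ (l, 0, 0)).1) l := h1.fst
    have h3 : c = fun l : ℝ => (κ (l, 0, 0)).1 := funext hcf
    rw [h3]
    exact h2
  refine ⟨hs, fun l => ?_, ?_, ?_⟩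
  · rw [hcf, hcf, h.perl l 0 0]
  · intro l l' he
    have h1 : κ (l, 0, 0) = κ (l', 0, 0) := by rw [hc, hc, he]
    exact (h.inj l 0 0 l' 0 0 (by simp) (by simp) h1).2.1
  · intro l
    have hl := hld l
    rw [CLG.emb_imm_iff (hs l)]
    intro hz
    have h2 : ContMDiffAt ISP 𝓘(ℝ, ℝ × ℂ × ℝ) ∞ hl.localInverse (κ (l, 0, 0)) := hl.localInverse_contMDiffAt
    have h3 : ∀ᶠ q in 𝓝 ((l, 0, 0) : ℝ × ℂ × ℝ), (hl.localInverse ∘ κ) q = id q := hl.localInverse_eventuallyEq_left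
    have h4 : (fun x : ℝ => hl.localInverse ((fun p : S3 => ((p, 1) : SP)) (c x))) =ᶠ[𝓝 l] fun x => (x, 0, 0) := by
      have h5 : ContinuousAt (fun x : ℝ => ((x, 0, 0) : ℝ × ℂ × ℝ)) l := by fun_prop
      filter_upwards [h5.eventually h3] with x hx
      have h6 : hl.localInverse (κ (x, 0, 0)) = (x, 0, 0) := hx
      rw [hc] at h6
      exact h6
    have hjj : ContMDiffAt (𝓡 3) ISP ∞ (fun p : S3 => ((p, 1) : SP)) (c l) :=
      contMDiffAt_id.prodMk contMDiffAt_const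
    have h2' : ContMDiffAt (𝓡 3) 𝓘(ℝ, ℝ × ℂ × ℝ) ∞ (fun p : S3 => hl.localInverse ((p, 1) : SP)) (c l) := by
      refine ContMDiffAt.comp (c l) ?_ hjj
      rw [← hc l]
      exact h2
    have h6 : mfderiv 𝓘(ℝ, ℝ) 𝓘(ℝ, ℝ × ℂ × ℝ) (fun x : ℝ => hl.localInverse ((c x, 1) : SP)) l =
        mfderiv 𝓘(ℝ, ℝ) 𝓘(ℝ, ℝ × ℂ × ℝ) (fun x : ℝ => ((x, 0, 0) : ℝ × ℂ × ℝ)) l := h4.mfderiv_eq
    have h7 : mfderiv 𝓘(ℝ, ℝ) 𝓘(ℝ, ℝ × ℂ × ℝ) (fun x : ℝ => hl.localInverse ((c x, 1) : SP)) l =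
        (mfderiv (𝓡 3) 𝓘(ℝ, ℝ × ℂ × ℝ) (fun p : S3 => hl.localInverse ((p, 1) : SP)) (c l)).comp
          (mfderiv 𝓘(ℝ, ℝ) (𝓡 3) c l) :=
      mfderiv_comp l (h2'.mdifferentiableAt (by simp)) ((hs l).mdifferentiableAt (by simp))
    have h8 : mfderiv 𝓘(ℝ, ℝ) 𝓘(ℝ, ℝ × ℂ × ℝ) (fun x : ℝ => ((x, 0, 0) : ℝ × ℂ × ℝ)) l (1 : ℝ) =
        ((1, 0, 0) : ℝ × ℂ × ℝ) := by
      rw [mfderiv_eq_fderiv]
      have h9 : HasFDerivAt (fun x : ℝ => ((x, 0, 0) : ℝ × ℂ × ℝ))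
          ((ContinuousLinearMap.id ℝ ℝ).prod (0 : ℝ →L[ℝ] ℂ × ℝ)) l :=
        (hasFDerivAt_id l).prodMk (hasFDerivAt_const ((0 : ℂ), (0 : ℝ)) l)
      rw [h9.fderiv]
      rfl
    have h10 := congrArg (fun L => L (1 : ℝ)) (h6.symm.trans h7)
    have h11 : ((1, 0, 0) : ℝ × ℂ × ℝ) = 0 := by
      rw [← h8]
      refine h10.trans ?_
      show (mfderiv (𝓡 3) 𝓘(ℝ, ℝ × ℂ × ℝ) (fun p : S3 => hl.localInverse ((p, 1) : SP)) (c l))
        ((mfderiv 𝓘(ℝ, ℝ) (𝓡 3) c l) (1 : ℝ)) = 0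
      rw [hz]
      exact map_zero _
    exact one_ne_zero (congrArg Prod.fst h11)

theorem lnk_circ {ι : Type} {Q : (ι → ℝ × ℂ × ℝ → SP) → Prop} {S : ι → Set S3} (h : LS Q S) :
    ∃ c : ι → ℝ → S3, (∀ i, EmbS (c i)) ∧ (∀ i, range (c i) = S i) ∧ ∀ i j, i ≠ j → Disjoint (S i) (S j) := by
  obtain ⟨c, κ, hL, -, hc, hr, -⟩ := h
  refine ⟨c, fun i => lnk_emb (hL.thick i) (hc i), hr, ?_⟩
  intro i j hij
  rw [Set.disjoint_left]
  rintro x hx hx'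
  rw [← hr i] at hx
  rw [← hr j] at hx'
  obtain ⟨l, hl⟩ := hx
  obtain ⟨l', hl'⟩ := hx'
  exact hij (hL.disj i j l 0 0 l' 0 0 (by simp) (by simp) (by rw [hc, hc, hl, hl']))

theorem oi_imm {K : ℝ → S3} (hK : EmbS K) {l : ℝ} (hl : ∀ l, K l ≠ pol) : deriv (fun l => oi (K l)) l ≠ 0 := by
  intro h0
  apply hK.imm l
  have h1 : HasFDerivAt (fun q : ℂ × ℝ => (io q : E4)) (fderiv ℝ (fun q : ℂ × ℝ => (io q : E4)) (oi (K l))) (oi (K l)) :=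
    (trv_io.differentiable (by simp) _).hasFDerivAt
  have h4 : HasDerivAt (fun l => oi (K l)) (deriv (fun l => oi (K l)) l) l :=
    ((trv_oi hK (hl l)).differentiableAt (by simp)).hasDerivAt
  have h2 := h1.comp_hasDerivAt l h4
  rw [h0, map_zero] at h2
  have h3 : (fun l => (K l : E4)) = (fun q : ℂ × ℝ => (io q : E4)) ∘ fun l => oi (K l) := by
    funext x
    show (K x : E4) = (io (oi (K x)) : E4)
    rw [CLG.io_oi (hl x)]
  rw [h3]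
  exact h2.deriv

theorem lnk_link {ι : Type} [Finite ι] {c : ι → ℝ → S3} (hc : ∀ i, EmbS (c i))
    (hd : ∀ i j, i ≠ j → Disjoint (range (c i)) (range (c j))) (hp : ∀ i, pol ∉ range (c i)) :
    LinkC (io ⁻¹' ⋃ i, range (c i)) := by
  obtain ⟨n, ⟨e⟩⟩ := Finite.exists_equiv_fin ι
  have hp' : ∀ i l, c i l ≠ pol := fun i l h => hp i ⟨l, h⟩
  refine ⟨n, fun k l => oi (c (e.symm k) l), ?_, ?_, ?_, ?_, ?_⟩
  · intro k
    rw [contDiff_iff_contDiffAt]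
    intro l
    exact trv_oi (hc _) (hp' _ l)
  · intro k l
    show oi (c (e.symm k) (l + 1)) = _
    rw [(hc _).per]
  · intro k l
    exact oi_imm (hc _) (hp' _)
  · intro k k' s t h
    have h1 : c (e.symm k) s = c (e.symm k') t := by
      rw [← CLG.io_oi (hp' (e.symm k) s), ← CLG.io_oi (hp' (e.symm k') t)]
      exact congrArg io h
    have h2 : k = k' := by
      by_contra hne
      have h3 : e.symm k ≠ e.symm k' := fun h => hne (e.symm.injective h)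
      exact Set.disjoint_left.1 (hd _ _ h3) ⟨s, rfl⟩ ⟨t, h1.symm⟩
    subst h2
    obtain ⟨m, hm⟩ := (hc _).inj _ _ h1
    exact ⟨rfl, -m, by push_cast; linarith⟩
  · ext q
    constructor
    · intro hq
      obtain ⟨i, l, hl⟩ := mem_iUnion.1 hq
      refine mem_iUnion.2 ⟨e i, l, ?_⟩
      show oi (c (e.symm (e i)) l) = q
      rw [Equiv.symm_apply_apply, hl, CLG.oi_io]
    · intro hq
      obtain ⟨k, l, hl⟩ := mem_iUnion.1 hq
      have hl' : oi (c (e.symm k) l) = q := hl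
      refine mem_iUnion.2 ⟨e.symm k, l, ?_⟩
      rw [← hl', CLG.io_oi (hp' _ _)]

theorem ls_sub {ι : Type} {S : ι → Set S3} (h : LS (fun _ => True) S) (p : ι → Prop) :
    LS (ι := {i // p i}) (fun _ => True) (fun i => S i.1) := by
  obtain ⟨c, κ, hL, h2, h3, h4, -⟩ := h
  refine ⟨fun i => c i.1, fun i => κ i.1, ⟨fun i => hL.thick i.1, ?_⟩, fun i => h2 i.1, fun i => h3 i.1, fun i => h4 i.1, trivial⟩
  intro i i' l v t l' v' t' hv hv' he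
  exact Subtype.ext (hL.disj _ _ l v t l' v' t' hv hv' he)

end Pool.Agent.LKR
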