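import Pool.Agent.LKR.Sqz
import Pool.Agent.ISO.Core
import Pool.Agent.RSG.ExM

/-!
# LKR/RingM: moving the ring
-/

open scoped ContDiff Topology
open Set Filter
open Complex (I)
open Pool.Agent.RSG (ex ex_norm)

namespace Pool.Agent.LKR

theorem ring_ex (x : ℝ) : HasDerivAt ex (2 * Real.pi * I * ex x) x := by
  have h1 : HasDerivAt (fun y : ℝ => ((2 * Real.pi * y : ℝ) : ℂ) * I) (((2 * Real.pi : ℝ) : ℂ) * I) x := by
    have h2 : HasDerivAt (fun y : ℝ => 2 * Real.pi * y) (2 * Real.pi) x := by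
      simpa using (hasDerivAt_id x).const_mul (2 * Real.pi)
    exact (h2.ofReal_comp).mul_const I
  have h3 := h1.cexp
  have e : Complex.exp (((2 * Real.pi * x : ℝ) : ℂ) * I) * (((2 * Real.pi : ℝ) : ℂ) * I) = 2 * Real.pi * I * ex x := by
    unfold ex
    push_cast
    ring
  rw [e] at h3
  exact h3

theorem og_range {R : ℝ} (hR : 0 < R) : Og R = range fun l : ℝ => (((R : ℝ) : ℂ) * ex l, (0 : ℝ)) := by
  ext q
  constructor
  · rintro ⟨h1, h2⟩
    refine ⟨Complex.arg q.1 / (2 * Real.pi), ?_⟩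
    refine Prod.ext ?_ h2.symm
    have h3 := RSG.ex_arg (p := q.1)
    rw [h1] at h3
    exact h3
  · rintro ⟨l, rfl⟩
    refine ⟨?_, rfl⟩
    show ‖((R : ℝ) : ℂ) * ex l‖ = R
    rw [norm_mul, ex_norm, mul_one, Complex.norm_real, Real.norm_of_nonneg hR.le]

/-- The ring of radius `R₁` is moved to the ring of radius `R₂` in a neighbourhood of the annulus. -/
theorem ring_move {O : Set (ℂ × ℝ)} (hO : IsOpen O) {R₁ R₂ : ℝ} (h1 : 0 < R₁) (h2 : 0 < R₂)
    (hA : ∀ w : ℂ, ‖w‖ ∈ segment ℝ R₁ R₂ → (w, (0 : ℝ)) ∈ O) :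
    ∃ F : Equiv.Perm (ℂ × ℝ), ISO.Move (⊥ : AddSubgroup (ℂ × ℝ)) O F ∧ F '' Og R₁ = Og R₂ := by
  have hpos : ∀ s ∈ Icc (0 : ℝ) 1, 0 < (1 - s) * R₁ + s * R₂ := by
    intro s hs
    rcases hs.1.eq_or_lt with h | h
    · rw [← h]; simpa using h1
    · have := mul_pos h h2
      have := mul_nonneg (sub_nonneg.2 hs.2) h1.le
      linarith
  let k : ℝ → ℝ → ℂ × ℝ := fun s l => ((((1 - s) * R₁ + s * R₂ : ℝ) : ℂ) * ex l, 0)
  have hexd : ∀ l : ℝ, HasDerivAt ex (2 * Real.pi * I * ex l) l := ring_ex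
  have hkd : ∀ s l : ℝ, HasDerivAt (k s) ((((1 - s) * R₁ + s * R₂ : ℝ) : ℂ) * (2 * Real.pi * I * ex l), (0 : ℝ)) l := by
    intro s l
    exact ((hexd l).const_mul _).prodMk (hasDerivAt_const l (0 : ℝ))
  obtain ⟨F, hF, hFk⟩ := ISO.core_loop (Λ := (⊥ : AddSubgroup (ℂ × ℝ))) sqz_lat hO (k := k)
    (by
      intro s _ l
      have e1 : ContDiff ℝ ∞ fun q : ℝ × ℝ => ((((1 - q.1) * R₁ + q.1 * R₂ : ℝ) : ℂ) * ex q.2, (0 : ℝ)) := by
        refine ContDiff.prodMk (ContDiff.mul ?_ (RSG.ex_smooth.comp contDiff_snd)) contDiff_const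
        exact Complex.ofRealCLM.contDiff.comp (((contDiff_const.sub contDiff_fst).mul contDiff_const).add
          (contDiff_fst.mul contDiff_const))
      exact e1.contDiffAt)
    (m₀ := 0) (AddSubgroup.zero_mem _)
    (by
      intro s _ l
      have e1 : ex (l + 1) = ex l := by
        have := RSG.ex_add_int l 1
        rwa [Int.cast_one] at this
      show ((((1 - s) * R₁ + s * R₂ : ℝ) : ℂ) * ex (l + 1), (0 : ℝ)) = _
      rw [e1, add_zero])
    (by
      intro s hs l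
      refine hA _ ?_
      rw [norm_mul, ex_norm, mul_one, Complex.norm_real, Real.norm_of_nonneg (hpos s hs).le]
      exact ⟨1 - s, s, by linarith [hs.2], hs.1, by ring, by simp⟩)
    (by
      intro s hs l
      rw [(hkd s l).deriv]
      intro h
      have h3 := congrArg Prod.fst h
      have h4 : (((1 - s) * R₁ + s * R₂ : ℝ) : ℂ) * (2 * Real.pi * I * ex l) = 0 := h3
      have h5 : ‖(((1 - s) * R₁ + s * R₂ : ℝ) : ℂ) * (2 * Real.pi * I * ex l)‖ = ((1 - s) * R₁ + s * R₂) * (2 * Real.pi) := by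
        rw [norm_mul, norm_mul, norm_mul, norm_mul, ex_norm, Complex.norm_I, Complex.norm_real, Complex.norm_real,
          Real.norm_of_nonneg (hpos s hs).le, Real.norm_of_nonneg Real.pi_pos.le]
        simp
      rw [h4, norm_zero] at h5
      have := mul_pos (hpos s hs) (mul_pos two_pos Real.pi_pos)
      linarith)
    (by
      intro s hs l l' m hm h
      rw [AddSubgroup.mem_bot] at hm
      rw [hm, add_zero] at h
      have h3 : (((1 - s) * R₁ + s * R₂ : ℝ) : ℂ) * ex l = (((1 - s) * R₁ + s * R₂ : ℝ) : ℂ) * ex l' :=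
        congrArg Prod.fst h
      have h4 : (((1 - s) * R₁ + s * R₂ : ℝ) : ℂ) ≠ 0 := by exact_mod_cast (hpos s hs).ne'
      have h5 := mul_left_cancel₀ h4 h3
      obtain ⟨p, hp⟩ := RSG.ex_eq_iff.1 h5
      exact ⟨-p, by push_cast; linarith⟩)
  refine ⟨F, hF, ?_⟩
  have e0 : Og R₁ = range (k 0) := by
    rw [og_range h1]
    congr 1
    funext l
    show _ = ((((1 - 0) * R₁ + 0 * R₂ : ℝ) : ℂ) * ex l, (0 : ℝ))
    rw [sub_zero, one_mul, zero_mul, add_zero]
  have e1 : Og R₂ = range (k 1) := by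
    rw [og_range h2]
    congr 1
    funext l
    show _ = ((((1 - 1) * R₁ + 1 * R₂ : ℝ) : ℂ) * ex l, (0 : ℝ))
    rw [sub_self, zero_mul, zero_add, one_mul]
  rw [e0, e1, ← range_comp]
  congr 1
  funext l
  exact hFk l

end Pool.Agent.LKR
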