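import Pool.Agent.LKR.Defs
import Pool.Agent.ISO.Cod0
import Pool.Agent.KNT.Cdm

/-!
# LKR/Sqz: a compact set which misses the closed half plane is moved into a small ball
-/

open scoped ContDiff Topology
open Set Filter
open Complex (I)
open Pool.Agent.KNT (CD)

namespace Pool.Agent.LKR

theorem sqz_lat : ISO.Lat (⊥ : AddSubgroup (ℂ × ℝ)) := by
  intro R
  apply (finite_singleton (0 : ℂ × ℝ)).subset
  rintro m ⟨hm, -⟩
  exact AddSubgroup.mem_bot.1 hm

theorem sqz_closed : IsClosed Hc := by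
  have h1 : IsClosed {q : ℂ × ℝ | q.1.re = 0} :=
    isClosed_eq (Complex.continuous_re.comp continuous_fst) continuous_const
  have h2 : IsClosed {q : ℂ × ℝ | q.1.im ≤ 0} :=
    isClosed_le (Complex.continuous_im.comp continuous_fst) continuous_const
  exact h1.inter h2

theorem sqz_norm {t : ℝ} (ht : 0 < t) : ‖Ps t‖ = t := by
  unfold Ps
  rw [Prod.norm_def]
  simp [abs_of_pos ht, ht.le]

/-- The half line from `x` to the point `Ps t` does not meet the closed half plane. -/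
theorem sqz_star {R t : ℝ} (ht : 0 < t) (htR : t < R) {x : ℂ × ℝ} (hx : ‖x‖ < R) (hx' : x ∉ Hc) {c : ℝ}
    (hc : 0 < c) (hc' : c ≤ 1) : ‖Ps t + c • (x - Ps t)‖ < R ∧ Ps t + c • (x - Ps t) ∉ Hc := by
  have e : Ps t + c • (x - Ps t) = (1 - c) • Ps t + c • x := by
    rw [smul_sub, sub_smul, one_smul]
    abel
  rw [e]
  constructor
  · refine (norm_add_le _ _).trans_lt ?_
    rw [norm_smul, norm_smul, sqz_norm ht, Real.norm_of_nonneg (by linarith), Real.norm_of_nonneg hc.le]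
    nlinarith
  · rintro ⟨h1, h2⟩
    have e1 : ((1 - c) • Ps t + c • x).1.re = c * x.1.re := by
      simp [Ps]
    have e2 : ((1 - c) • Ps t + c • x).1.im = (1 - c) * t + c * x.1.im := by
      simp [Ps]
    rw [e1] at h1
    rw [e2] at h2
    have h3 : x.1.re = 0 := by
      rcases mul_eq_zero.1 h1 with h | h
      · linarith
      · exact h
    have h4 : 0 < x.1.im := by
      by_contra h
      exact hx' ⟨h3, not_lt.1 h⟩
    have h5 := mul_pos hc h4
    have h6 : 0 ≤ (1 - c) * t := mul_nonneg (by linarith) ht.le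
    linarith

theorem squeeze {Z : Set (ℂ × ℝ)} (hZ : IsCompact Z) (hd : Disjoint Z Hc) {R t r : ℝ} (ht : 0 < t) (htR : t < R)
    (hR : ∀ q ∈ Z, ‖q‖ < R) (hr : 0 < r) :
    ∃ F : Equiv.Perm (ℂ × ℝ), CD ({q | ‖q‖ < R} ∩ Hcᶜ) F ∧ F '' Z ⊆ Metric.ball (Ps t) r := by
  obtain ⟨D, hD⟩ := hZ.isBounded.subset_closedBall (Ps t)
  obtain ⟨c, hc, hc', hcr⟩ : ∃ c : ℝ, 0 < c ∧ c ≤ 1 ∧ c * |D| < r := by
    refine ⟨min 1 (r / (2 * (|D| + 1))), lt_min one_pos (by positivity), min_le_left _ _, ?_⟩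
    have h1 : min 1 (r / (2 * (|D| + 1))) * |D| ≤ r / (2 * (|D| + 1)) * |D| :=
      mul_le_mul_of_nonneg_right (min_le_right _ _) (abs_nonneg _)
    have h2 : r / (2 * (|D| + 1)) * |D| < r := by
      rw [div_mul_eq_mul_div, div_lt_iff₀ (by positivity)]
      nlinarith [abs_nonneg D]
    linarith
  have hO : IsOpen ({q : ℂ × ℝ | ‖q‖ < R} ∩ Hcᶜ) :=
    (isOpen_lt continuous_norm continuous_const).inter sqz_closed.isOpen_compl
  have hs : ∀ s ∈ Icc (0 : ℝ) 1, 0 < 1 - s * (1 - c) ∧ 1 - s * (1 - c) ≤ 1 := by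
    intro s hs
    constructor
    · nlinarith [hs.1, hs.2]
    · nlinarith [hs.1, hs.2, mul_nonneg hs.1 (sub_nonneg.2 hc')]
  let e : ℝ → ℂ × ℝ → ℂ × ℝ := fun s x => Ps t + (1 - s * (1 - c)) • (x - Ps t)
  have hfd : ∀ (s : ℝ) (x : ℂ × ℝ), HasFDerivAt (e s) ((1 - s * (1 - c)) • ContinuousLinearMap.id ℝ (ℂ × ℝ)) x := by
    intro s x
    exact (((hasFDerivAt_id x).sub_const (Ps t)).const_smul (1 - s * (1 - c))).const_add (Ps t)
  obtain ⟨F, W, hF, -, hZW, hFe, -⟩ := ISO.cod0 (Λ := (⊥ : AddSubgroup (ℂ × ℝ))) sqz_lat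
    (Λ' := (⊥ : AddSubgroup (ℂ × ℝ))) (O := {q : ℂ × ℝ | ‖q‖ < R} ∩ Hcᶜ) hO (W := univ) isOpen_univ
    (fun _ _ _ _ => trivial) (e := e)
    (by
      intro s _ x _
      have h1 : ContDiff ℝ ∞ fun q : ℝ × (ℂ × ℝ) => Ps t + (1 - q.1 * (1 - c)) • (q.2 - Ps t) :=
        contDiff_const.add ((contDiff_const.sub (contDiff_fst.mul contDiff_const)).smul
          (contDiff_snd.sub contDiff_const))
      exact h1.contDiffAt)
    (by
      intro m hm
      rw [AddSubgroup.mem_bot] at hm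
      refine ⟨0, AddSubgroup.zero_mem _, fun s _ x _ => ?_⟩
      rw [hm, add_zero, add_zero])
    (C := Z) hZ (subset_univ _)
    (by
      intro s hs' x _
      rw [(hfd s x).fderiv]
      have h1 := (hs s hs').1.ne'
      constructor
      · intro v w h
        have h2 : (1 - s * (1 - c)) • v = (1 - s * (1 - c)) • w := h
        exact smul_right_injective _ h1 h2
      · intro w
        refine ⟨(1 - s * (1 - c))⁻¹ • w, ?_⟩
        show (1 - s * (1 - c)) • ((1 - s * (1 - c))⁻¹ • w) = w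
        rw [smul_smul, mul_inv_cancel₀ h1, one_smul])
    (by
      intro s hs' x _ x' _ m hm h
      rw [AddSubgroup.mem_bot] at hm
      refine ⟨0, AddSubgroup.zero_mem _, ?_⟩
      rw [hm, add_zero] at h
      have h2 : (1 - s * (1 - c)) • (x - Ps t) = (1 - s * (1 - c)) • (x' - Ps t) := add_left_cancel h
      have h3 := smul_right_injective _ (hs s hs').1.ne' h2
      rw [add_zero]
      exact sub_left_injective h3)
    (by
      intro s hs' x hx
      have h1 := sqz_star ht htR (hR x hx) (fun h => Set.disjoint_left.1 hd hx h) (hs s hs').1 (hs s hs').2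
      exact ⟨h1.1, h1.2⟩)
  refine ⟨F, KNT.cd_of_move hF, ?_⟩
  rintro _ ⟨x, hx, rfl⟩
  have h1 := hFe x (hZW hx)
  have h2 : e 0 x = x := by
    show Ps t + (1 - 0 * (1 - c)) • (x - Ps t) = x
    rw [zero_mul, sub_zero, one_smul]
    abel
  have h3 : e 1 x = Ps t + c • (x - Ps t) := by
    show Ps t + (1 - 1 * (1 - c)) • (x - Ps t) = _
    rw [one_mul, sub_sub_cancel]
  rw [h2, h3] at h1
  rw [h1, Metric.mem_ball, dist_eq_norm, add_sub_cancel_left, norm_smul, Real.norm_of_nonneg hc.le]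
  have h4 := hD hx
  rw [Metric.mem_closedBall, dist_eq_norm] at h4
  have h5 : c * ‖x - Ps t‖ ≤ c * |D| := mul_le_mul_of_nonneg_left (h4.trans (le_abs_self D)) hc.le
  linarith

end Pool.Agent.LKR
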