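import Pool.Agent.ISO.Small
import Pool.Agent.LKR.Sqz

/-!
# LKR/StrP: straightening of a curve near a point, the plane `h = 0` is fixed
-/

open scoped ContDiff Topology
open Set Filter
open Pool.Agent.ISO

namespace Pool.Agent.LKR

theorem strp_deriv {f : ℝ → ℝ} {x : ℝ} (hf : ContDiffAt ℝ ∞ f x) : ContDiffAt ℝ ∞ (deriv f) x := by
  have h1 : ContDiffAt ℝ ∞ (fderiv ℝ f) x := hf.fderiv_right (m := ∞) (by simp)
  have h2 : ContDiffAt ℝ ∞ (fun y => fderiv ℝ f y 1) x := h1.clm_apply contDiffAt_const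
  exact h2

/-- local smooth inverse -/
theorem strp_inv {ρ : ℝ → ℝ} {a : ℝ} (hρ : ∀ᶠ x in 𝓝 a, ContDiffAt ℝ ∞ ρ x) (hd : deriv ρ a ≠ 0) :
    ∃ g : ℝ → ℝ, (∀ᶠ y in 𝓝 (ρ a), ContDiffAt ℝ ∞ g y) ∧ (∀ᶠ x in 𝓝 a, g (ρ x) = x) := by
  have ha0 := hρ.self_of_nhds
  have hs : HasStrictDerivAt ρ (deriv ρ a) a := ha0.hasStrictDerivAt (by simp)
  have hs' := hs.hasStrictFDerivAt_equiv hd
  set φ := hs'.toOpenPartialHomeomorph ρ with hφ
  have hcoe : (φ : ℝ → ℝ) = ρ := rfl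
  have ha : a ∈ φ.source := hs'.mem_toOpenPartialHomeomorph_source
  have hat : ρ a ∈ φ.target := φ.map_source ha
  have hga : φ.symm (ρ a) = a := φ.left_inv ha
  have h1 : ∀ᶠ x in 𝓝 a, deriv ρ x ≠ 0 := (strp_deriv ha0).continuousAt.eventually_ne hd
  have h2 : ∀ᶠ y in 𝓝 (ρ a), deriv ρ (φ.symm y) ≠ 0 ∧ ContDiffAt ℝ ∞ ρ (φ.symm y) := by
    have h3 : Tendsto φ.symm (𝓝 (ρ a)) (𝓝 a) := by
      have := φ.continuousAt_symm hat
      unfold ContinuousAt at this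
      rw [hga] at this
      exact this
    exact h3.eventually (h1.and hρ)
  refine ⟨φ.symm, ?_, ?_⟩
  · filter_upwards [h2, φ.open_target.mem_nhds hat] with y hy hyt
    have h5 : HasDerivAt ρ (deriv ρ (φ.symm y)) (φ.symm y) :=
      (hy.2.differentiableAt (by simp)).hasDerivAt
    refine φ.contDiffAt_symm_deriv hy.1 hyt ?_ ?_
    · rw [hcoe]; exact h5
    · rw [hcoe]; exact hy.2
  · filter_upwards [φ.open_source.mem_nhds ha] with x hx
    exact φ.left_inv hx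

theorem straight_plane {δ : ℝ} (hδ : 0 < δ) {y u : ℝ → ℂ × ℝ} (hy : ∀ l, |l| < δ → ContDiffAt ℝ ∞ y l)
    (hu : ∀ l, |l| < δ → ContDiffAt ℝ ∞ u l) (h0 : y 0 = 0) (h0' : u 0 = 0) (h1 : deriv y 0 = deriv u 0)
    (h2 : (deriv y 0).2 ≠ 0) {r : ℝ} (hr : 0 < r) :
    ∃ ε > 0, ∃ F : Equiv.Perm (ℂ × ℝ), Move ⊥ (Metric.ball 0 r) F ∧ (∀ w : ℂ, F (w, 0) = (w, 0)) ∧
      ∀ l, |l| ≤ ε → F (y l) = u l := by
  have hev : ∀ {p : ℝ → Prop}, (∀ l, |l| < δ → p l) → ∀ᶠ l in 𝓝 (0 : ℝ), p l := by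
    intro p hp
    refine Metric.eventually_nhds_iff.2 ⟨δ, hδ, fun l hl => hp l ?_⟩
    rwa [Real.dist_eq, sub_zero] at hl
  have hy0 : ContDiffAt ℝ ∞ y 0 := hy 0 (by rwa [abs_zero])
  have hu0 : ContDiffAt ℝ ∞ u 0 := hu 0 (by rwa [abs_zero])
  have hyd : HasDerivAt y (deriv y 0) 0 := (hy0.differentiableAt (by simp)).hasDerivAt
  have hud : HasDerivAt u (deriv u 0) 0 := (hu0.differentiableAt (by simp)).hasDerivAt
  have hρd : HasDerivAt (fun l => (y l).2) (deriv y 0).2 0 :=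
    (ContinuousLinearMap.snd ℝ ℂ ℝ).hasFDerivAt.comp_hasDerivAt (0 : ℝ) hyd
  have hρ : ∀ᶠ l in 𝓝 (0 : ℝ), ContDiffAt ℝ ∞ (fun l => (y l).2) l :=
    hev fun l hl => contDiffAt_snd.comp l (hy l hl)
  obtain ⟨g, hg1, hg2⟩ := strp_inv hρ (by rw [hρd.deriv]; exact h2)
  have e0 : (y 0).2 = 0 := by rw [h0]; rfl
  rw [e0] at hg1
  have hg0 : g 0 = 0 := by
    have := hg2.self_of_nhds
    rwa [e0] at this
  have hgc : ContinuousAt g 0 := hg1.self_of_nhds.continuousAt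
  -- the correction
  let G : ℝ → ℂ × ℝ := fun h => u (g h) - y (g h)
  have hGs : ∀ᶠ h in 𝓝 (0 : ℝ), ContDiffAt ℝ ∞ G h := by
    have a1 : Tendsto g (𝓝 0) (𝓝 0) := by
      have := hgc.tendsto
      rwa [hg0] at this
    filter_upwards [hg1, a1.eventually (hev fun l hl => hy l hl), a1.eventually (hev fun l hl => hu l hl)] with h b1 b2 b3
    exact (b3.comp h b1).sub (b2.comp h b1)
  have hG0 : G 0 = 0 := by
    show u (g 0) - y (g 0) = 0
    rw [hg0, h0, h0', sub_self]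
  have hGd : HasStrictDerivAt G 0 0 := by
    have a1 := hGs.self_of_nhds.hasStrictDerivAt (n := ∞) (by simp)
    have a2 : HasDerivAt g (deriv g 0) 0 := (hg1.self_of_nhds.differentiableAt (by simp)).hasDerivAt
    have a3 : HasDerivAt u (deriv u 0) (g 0) := by rw [hg0]; exact hud
    have a4 : HasDerivAt y (deriv y 0) (g 0) := by rw [hg0]; exact hyd
    have a5 : HasDerivAt G (deriv g 0 • deriv u 0 - deriv g 0 • deriv y 0) 0 :=
      (HasDerivAt.scomp (0 : ℝ) a3 a2).sub (HasDerivAt.scomp (0 : ℝ) a4 a2)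
    rw [h1, sub_self] at a5
    rw [a5.deriv] at a1
    exact a1
  -- the cutoff
  let f : ContDiffBump (0 : ℂ × ℝ) := ⟨1, 2, one_pos, one_lt_two⟩
  obtain ⟨B, hB⟩ := ContDiff.lipschitzWith_of_hasCompactSupport (𝕂 := ℝ) f.hasCompactSupport
    (f.contDiff (n := 1)) (by simp)
  have hf1 : ∀ x : ℂ × ℝ, ‖x‖ ≤ 1 → f x = 1 := fun x hx => f.one_of_mem_closedBall (by
    rw [mem_closedBall_zero_iff]; exact hx)
  have hf2 : ∀ x : ℂ × ℝ, 2 ≤ ‖x‖ → f x = 0 := fun x hx => f.zero_of_le_dist (by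
    rw [dist_zero_right]; exact hx)
  have hB0 : 0 ≤ (B : ℝ) := B.2
  set κ : ℝ := 1 / (2 * (1 + 4 * B)) with hκ
  have hκ0 : 0 < κ := by positivity
  have hκ1 : (1 + 4 * B) * κ = 1 / 2 := by
    rw [hκ]
    field_simp
  obtain ⟨ρ₁, hρ₁, hG'⟩ : ∃ ρ > 0, ∀ l l' : ℝ, |l| < ρ → |l'| < ρ → ‖G l - G l'‖ ≤ κ * |l - l'| := by
    have a1 := hGd.hasStrictFDerivAt.isLittleO.def hκ0
    obtain ⟨ρ, hρ, a2⟩ := Metric.eventually_nhds_iff.1 a1
    refine ⟨ρ, hρ, fun l l' hl hl' => ?_⟩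
    have a3 := a2 (y := (l, l')) (by
      rw [Prod.dist_eq]
      refine max_lt ?_ ?_
      · show dist l 0 < ρ
        rw [Real.dist_eq, sub_zero]
        exact hl
      · show dist l' 0 < ρ
        rw [Real.dist_eq, sub_zero]
        exact hl')
    simpa using a3
  obtain ⟨ρ₂, hρ₂, hGs'⟩ := Metric.eventually_nhds_iff.1 hGs
  set m : ℝ := min (min ρ₁ ρ₂) r with hm
  have hm0 : 0 < m := lt_min (lt_min hρ₁ hρ₂) hr
  have m1 : m ≤ ρ₁ := (min_le_left _ _).trans (min_le_left _ _)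
  have m2 : m ≤ ρ₂ := (min_le_left _ _).trans (min_le_right _ _)
  have m3 : m ≤ r := min_le_right _ _
  set ε : ℝ := m / 5 with hε
  have hε0 : 0 < ε := by positivity
  have e1 : 4 * ε < m := by rw [hε]; linarith
  let H : ℂ × ℝ → ℂ × ℝ := fun x => f (ε⁻¹ • x) • G x.2
  have hn : ∀ x : ℂ × ℝ, ‖ε⁻¹ • x‖ = ‖x‖ / ε := by
    intro x
    rw [norm_smul, norm_inv, Real.norm_of_nonneg hε0.le]
    ring
  have hsn : ∀ x : ℂ × ℝ, |x.2| ≤ ‖x‖ := fun x => norm_snd_le x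
  have hH0 : ∀ x : ℂ × ℝ, 2 * ε ≤ ‖x‖ → H x = 0 := by
    intro x hx
    show f (ε⁻¹ • x) • G x.2 = 0
    rw [hf2 _ (by rw [hn, le_div_iff₀ hε0]; exact hx), zero_smul]
  have hHs : ContDiff ℝ ∞ H := by
    rw [contDiff_iff_contDiffAt]
    intro x
    by_cases hx : ‖x‖ < 3 * ε
    · have a1 : ContDiffAt ℝ ∞ G x.2 := hGs' (by
        rw [Real.dist_eq, sub_zero]
        have := hsn x
        linarith)
      have a2 : ContDiffAt ℝ ∞ (fun x : ℂ × ℝ => G x.2) x := a1.comp x contDiffAt_snd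
      have a4 : ContDiff ℝ ∞ (fun x : ℂ × ℝ => ε⁻¹ • x) := contDiff_const_smul _
      have a3 : ContDiffAt ℝ ∞ (fun x : ℂ × ℝ => f (ε⁻¹ • x)) x := (f.contDiff.comp a4).contDiffAt
      exact a3.smul a2
    · have a1 : H =ᶠ[𝓝 x] fun _ => 0 := by
        have a2 : ∀ᶠ z in 𝓝 x, 2 * ε < ‖z‖ :=
          (isOpen_lt continuous_const continuous_norm).mem_nhds (by
            show 2 * ε < ‖x‖
            linarith [not_lt.1 hx])
        filter_upwards [a2] with z hz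
        exact hH0 z hz.le
      exact contDiffAt_const.congr_of_eventuallyEq a1
  have key : ∀ x x' : ℂ × ℝ, ‖x‖ < 4 * ε → ‖x'‖ < 4 * ε → ‖H x - H x'‖ ≤ 1 / 2 * ‖x - x'‖ := by
    intro x x' hx hx'
    have s1 := hsn x
    have s2 := hsn x'
    have a2 := hG' x.2 x'.2 (by linarith) (by linarith)
    have a3 := hG' x'.2 0 (by linarith) (by rw [abs_zero]; exact hρ₁)
    rw [hG0, sub_zero, sub_zero] at a3
    have a4 : |f (ε⁻¹ • x) - f (ε⁻¹ • x')| ≤ B * (‖x - x'‖ / ε) := by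
      have b1 := hB.dist_le_mul (ε⁻¹ • x) (ε⁻¹ • x')
      rw [Real.dist_eq, dist_eq_norm, ← smul_sub, hn] at b1
      exact b1
    have a0 : |x.2 - x'.2| ≤ ‖x - x'‖ := hsn (x - x')
    have b1 : H x - H x' = f (ε⁻¹ • x) • (G x.2 - G x'.2) + (f (ε⁻¹ • x) - f (ε⁻¹ • x')) • G x'.2 := by
      show f (ε⁻¹ • x) • G x.2 - f (ε⁻¹ • x') • G x'.2 = _
      module
    rw [b1]
    refine (norm_add_le _ _).trans ?_
    rw [norm_smul, norm_smul, Real.norm_of_nonneg f.nonneg, Real.norm_eq_abs]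
    have b2 : f (ε⁻¹ • x) * ‖G x.2 - G x'.2‖ ≤ 1 * (κ * ‖x - x'‖) :=
      mul_le_mul f.le_one (a2.trans (mul_le_mul_of_nonneg_left a0 hκ0.le)) (norm_nonneg _) zero_le_one
    have b3 : |f (ε⁻¹ • x) - f (ε⁻¹ • x')| * ‖G x'.2‖ ≤ (B * (‖x - x'‖ / ε)) * (κ * (4 * ε)) := by
      refine mul_le_mul a4 (a3.trans ?_) (norm_nonneg _) (by positivity)
      exact mul_le_mul_of_nonneg_left (by linarith) hκ0.le
    have b4 : (B * (‖x - x'‖ / ε)) * (κ * (4 * ε)) = 4 * B * κ * ‖x - x'‖ := by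
      field_simp
    have b5 : (1 + 4 * B) * κ * ‖x - x'‖ = 1 / 2 * ‖x - x'‖ := by rw [hκ1]
    linarith
  have hfd : ∀ x, ‖fderiv ℝ H x‖ ≤ 1 / 2 := by
    intro x
    refine norm_fderiv_le_of_lip' ℝ (by norm_num) ?_
    by_cases hx : ‖x‖ < 4 * ε
    · have a2 : ∀ᶠ z in 𝓝 x, ‖z‖ < 4 * ε := (isOpen_lt continuous_norm continuous_const).mem_nhds hx
      filter_upwards [a2] with z hz
      exact key z x hz hx
    · have a2 : ∀ᶠ z in 𝓝 x, 2 * ε < ‖z‖ :=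
          (isOpen_lt continuous_const continuous_norm).mem_nhds (by
            show 2 * ε < ‖x‖
            linarith [not_lt.1 hx])
      filter_upwards [a2] with z hz
      rw [hH0 z hz.le, hH0 x (by linarith [not_lt.1 hx]), sub_self, norm_zero]
      positivity
  obtain ⟨F, F1, F2, F3⟩ := small_perm hHs hfd
  have hyc : ∀ᶠ l in 𝓝 (0 : ℝ), ‖y l‖ < ε := by
    have a1 : ContinuousAt (fun l => ‖y l‖) 0 := hy0.continuousAt.norm
    refine a1.eventually_lt continuousAt_const ?_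
    rw [h0, norm_zero]
    exact hε0
  obtain ⟨η, hη, hη'⟩ := Metric.eventually_nhds_iff.1 (hyc.and hg2)
  refine ⟨η / 2, by positivity, F, ⟨F1, F2, ?_, Metric.closedBall 0 (2 * ε), isCompact_closedBall _ _, ?_, ?_⟩, ?_, ?_⟩
  · intro m' hm' x
    rw [AddSubgroup.mem_bot] at hm'
    rw [hm', add_zero, add_zero]
  · exact Metric.closedBall_subset_ball (by linarith)
  · intro x hx
    have a1 := hx 0 (AddSubgroup.zero_mem _)
    rw [add_zero, mem_closedBall_zero_iff, not_le] at a1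
    rw [F3, hH0 x a1.le, add_zero]
  · intro w
    rw [F3]
    have : H (w, 0) = 0 := by
      show f (ε⁻¹ • (w, (0 : ℝ))) • G 0 = 0
      rw [hG0, smul_zero]
    rw [this, add_zero]
  · intro l hl
    obtain ⟨a1, a2⟩ := hη' (y := l) (by rw [Real.dist_eq, sub_zero]; linarith)
    rw [F3]
    have : H (y l) = u l - y l := by
      show f (ε⁻¹ • y l) • G (y l).2 = _
      rw [hf1 _ (by rw [hn, div_le_one hε0]; exact a1.le), one_smul]
      show u (g (y l).2) - y (g (y l).2) = _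
      rw [a2]
    rw [this, add_sub_cancel]

end Pool.Agent.LKR
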