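import Pool.Agent.LKR.Crd
import Pool.Agent.LKR.LinP
import Pool.Agent.LKR.StrP
import Pool.Agent.LKR.RingM
import Pool.Agent.CLG.A0c
import Pool.Agent.CLG.A0d

/-!
# LKR/Reb: re-basing

The axis `U` and a link which crosses the half plane in one point, transversally: after a diffeo of the sphere the component
through the crossing is the closure of a long curve, and the axis becomes the ring `Og R`, `R` arbitrarily large.
-/

open scoped Manifold ContDiff Topology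
open Set Filter
open Complex (I)
open Pool.Agent.RSG
open Pool.Agent.CLG
open Pool.Agent.KNH (Hat)
open Pool.Agent.ISO (Move)

namespace Pool.Agent.LKR

/-- straightening near `pol`, the plane `x 3 = 0` is fixed -/
theorem reb_str {K : ℝ → S3} (hK : EmbS K) (h0 : K 0 = pol)
    (h1 : HasDerivAt (fun l => (K l : E4)) (WithLp.toLp 2 ![0, 0, 0, 2 * Real.pi]) 0) :
    ∃ Φ : S3 ≃ₘ⟮𝓡 3, 𝓡 3⟯ S3, (∃ ε > 0, ∀ l, |l| ≤ ε → Φ (K l) = Un l) ∧ ∀ x : S3, (x : E4) 3 = 0 → Φ x = x := by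
  have hcont : Continuous fun l => (K l : E4) 2 := by
    have h2 : Continuous fun l => (K l : E4) := continuous_subtype_val.comp hK.smooth.continuous
    exact (EuclideanSpace.proj (𝕜 := ℝ) (2 : Fin 4)).continuous.comp h2
  have hpos : 0 < (K 0 : E4) 2 := by
    rw [h0, pol_coe]
    show (0 : ℝ) < 1
    exact one_pos
  obtain ⟨δ', hδ', hδ''⟩ := Metric.eventually_nhds_iff.1 (hcont.continuousAt.eventually (lt_mem_nhds hpos))
  have hlt : ∀ l, |l| < min δ' (1 / 2) → 0 < (K l : E4) 2 := by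
    intro l hl
    apply hδ''
    rw [Real.dist_eq, sub_zero]
    exact hl.trans_le (min_le_left _ _)
  have hd := A0c_y h0 h1
  have hz : oi' (K 0) = 0 := by
    rw [h0]
    show oiE' (pol : E4) = _
    rw [pol_coe]
    refine Prod.ext ?_ ?_
    · apply Complex.ext <;> simp [oiE']
    · simp [oiE']
  obtain ⟨ε, hε, F, hF, hF0, hFu⟩ := straight_plane (δ := min δ' (1 / 2)) (by positivity)
    (y := fun l => oi' (K l)) (u := fun l => ((0 : ℂ), Real.tan (Real.pi * l)))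
    (fun l hl => by
      have h2 : ContMDiffAt 𝓘(ℝ, ℝ) 𝓘(ℝ, ℂ × ℝ) ∞ (oi' ∘ K) l :=
        ContMDiffAt.comp l (oi'_smooth (by have := hlt l hl; linarith)) (hK.smooth l)
      exact contMDiffAt_iff_contDiffAt.1 h2)
    (fun l hl => by
      have h2 : ContDiffAt ℝ ∞ Real.tan (Real.pi * l) :=
        Real.contDiffAt_tan.2 (A0c_cos (hl.trans_le (min_le_right _ _))).ne'
      have h3 : ContDiffAt ℝ ∞ (fun l : ℝ => Real.tan (Real.pi * l)) l :=
        h2.comp l (contDiffAt_const.mul contDiffAt_id)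
      exact contDiffAt_const.prodMk h3)
    hz
    (by
      show ((0 : ℂ), Real.tan (Real.pi * 0)) = 0
      simp)
    (by rw [hd.deriv, A0c_u.deriv])
    (by
      rw [hd.deriv]
      exact Real.pi_ne_zero)
    one_pos
  obtain ⟨Φ, hΦ, hΦ'⟩ := ext_move io'_ld io'_inj hF
  refine ⟨Φ, ⟨min ε (min δ' (1 / 2) / 2), by positivity, ?_⟩, ?_⟩
  · intro l hl
    have hl1 : |l| < min δ' (1 / 2) := by
      have h2 := hl.trans (min_le_right _ _)
      have h3 : 0 < min δ' (1 / 2) := by positivity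
      linarith
    have e1 : K l = io' (oi' (K l)) := (io'_oi' (by have := hlt l hl1; linarith)).symm
    rw [e1, hΦ, hFu l (hl.trans (min_le_left _ _))]
    exact io'_tan (hl1.trans_le (min_le_right _ _))
  · intro x hx
    by_cases h : x ∈ io' '' Metric.ball 0 1
    · obtain ⟨q, -, rfl⟩ := h
      rw [crd3'] at hx
      have h2 : q.2 = 0 := by
        rcases div_eq_zero_iff.1 hx with h | h
        · linarith
        · exact absurd h (IOa_D q).ne'
      have e : q = (q.1, 0) := Prod.ext rfl h2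
      rw [hΦ, e, hF0]
    · exact hΦ' x h

theorem rebase {K : ℝ → S3} (hK : EmbS K) {B : Set S3} (hB : IsClosed B) (h0 : K 0 ∈ Pg)
    (hd : deriv (fun l => (K l : E4) 0) 0 ≠ 0) (hKU : ∀ l, K l ∉ Hat KNT.U)
    (hKP : ∀ l, K l ∈ Pg → ∃ m : ℤ, l = m) (hBU : Disjoint B (Hat KNT.U)) (hBP : Disjoint B Pg)
    (hBK : Disjoint B (range K)) :
    ∃ (k : ℝ → ℂ × ℝ) (T : ℝ) (B' : Set (ℂ × ℝ)), Lng T k ∧ IsCompact B' ∧ Disjoint B' (range k) ∧
      ∀ R : ℝ, 1 ≤ R → ∃ Φ : S3 ≃ₘ⟮𝓡 3, 𝓡 3⟯ S3, Φ '' Hat KNT.U = io '' Og R ∧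
        Φ '' range K = Hat (range k) ∧ Φ '' B = io '' B' ∧ Disjoint B' (Og R) ∧ Disjoint (range k) (Og R) := by
  obtain ⟨Φ₁, p0, p1, p2, p3⟩ := page_diffeo hK h0 hd
  have hK1 := emb_comp hK Φ₁
  obtain ⟨Φ₂, ⟨ε, hε, s1⟩, s2⟩ := reb_str (K := Φ₁ ∘ K) hK1 p0 p1
  have hK2 := emb_comp hK1 Φ₂
  obtain ⟨T, k, -, hk, hLC⟩ := long_of_emb hK2 hε s1
  have hr : range (Φ₂ ∘ (Φ₁ ∘ K)) = Hat (range k) := by
    rw [← hLC]
    exact KNH.range_LC k
  have hcl : IsClosed ((Φ₁.trans Φ₂) '' B) := (Φ₁.trans Φ₂).toHomeomorph.isClosedMap B hB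
  have hcp : IsCompact ((Φ₁.trans Φ₂) '' B) := hcl.isCompact
  have hpolK : pol ∈ range (Φ₂ ∘ (Φ₁ ∘ K)) := by rw [hr]; exact Or.inl rfl
  have hpol : pol ∉ (Φ₁.trans Φ₂) '' B := by
    rintro ⟨x, hx, he⟩
    obtain ⟨l, hl⟩ := hpolK
    have h2 : Φ₂ (Φ₁ x) = Φ₂ (Φ₁ (K l)) := he.trans hl.symm
    have h3 : x = K l := Φ₁.injective (Φ₂.injective h2)
    exact Set.disjoint_left.1 hBK hx ⟨l, h3.symm⟩
  have hBi : io '' (io ⁻¹' ((Φ₁.trans Φ₂) '' B)) = (Φ₁.trans Φ₂) '' B := by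
    rw [image_preimage_eq_inter_range]
    refine inter_eq_left.2 ?_
    intro x hx
    have h2 : x ≠ pol := fun h => hpol (h ▸ hx)
    exact ⟨oi x, io_oi h2⟩
  have hBc : IsCompact (io ⁻¹' ((Φ₁.trans Φ₂) '' B)) := by
    have e : io ⁻¹' ((Φ₁.trans Φ₂) '' B) = oi '' ((Φ₁.trans Φ₂) '' B) := by
      ext q
      constructor
      · intro hq
        exact ⟨io q, hq, oi_io q⟩
      · rintro ⟨x, hx, rfl⟩
        have h2 : x ≠ pol := fun h => hpol (h ▸ hx)
        show io (oi x) ∈ (Φ₁.trans Φ₂) '' B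
        rw [io_oi h2]
        exact hx
    rw [e]
    refine hcp.image_of_continuousOn ?_
    intro x hx
    have h2 : x ≠ pol := fun h => hpol (h ▸ hx)
    exact (oi_smooth h2).continuousAt.continuousWithinAt
  -- the exterior of the ring is fixed by `Φ₂` and does not meet the link
  have hext : ∀ x : S3, (x : E4) 3 = 0 → (x ∈ io '' Og 1 ∨ x ∈ Pe) → ∀ y, Φ₂ (Φ₁ y) = x →
      y ∈ Hat KNT.U ∨ y ∈ Pg := by
    intro x hx3 hx y hy
    have h2 : Φ₁ y = x := Φ₂.injective (show Φ₂ (Φ₁ y) = Φ₂ x by rw [hy, s2 x hx3])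
    rcases hx with hx | hx
    · left
      rw [hatU_iff, p2, h2]
      exact (ring_iff x).1 hx
    · right
      rw [p3, h2]
      exact hx
  have hannB : ∀ w : ℂ, 1 ≤ ‖w‖ → (w, (0 : ℝ)) ∉ io ⁻¹' ((Φ₁.trans Φ₂) '' B) := by
    rintro w hw ⟨y, hy, he⟩
    rcases hext (io (w, 0)) (io_plane w) (io_ext hw) y he with h | h
    · exact Set.disjoint_left.1 hBU hy h
    · exact Set.disjoint_left.1 hBP hy h
  have hannK : ∀ w : ℂ, 1 ≤ ‖w‖ → (w, (0 : ℝ)) ∉ range k := by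
    rintro w hw hwk
    have h1 : io (w, 0) ∈ Hat (range k) := Or.inr ⟨_, hwk, rfl⟩
    rw [← hr] at h1
    obtain ⟨l, hl⟩ := h1
    rcases hext (io (w, 0)) (io_plane w) (io_ext hw) (K l) hl with h | h
    · exact hKU l h
    · obtain ⟨m, hm⟩ := hKP l h
      have h2 : K l = K 0 := by
        have h3 : Function.Periodic K 1 := hK.per
        have h4 := h3.int_mul m 0
        rw [zero_add, mul_one] at h4
        rw [hm, h4]
      have h3 : io (w, 0) = pol := by
        rw [← hl]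
        show Φ₂ (Φ₁ (K l)) = pol
        rw [h2]
        have := s1 0 (by rw [abs_zero]; exact hε.le)
        have h5 : Un 0 = pol := by simpa using Un_int 0
        rw [h5] at this
        exact this
      exact io_ne _ h3
  have hkc : IsClosed (range k) := by
    have e : range k = io ⁻¹' (Hat (range k)) := by
      ext q
      constructor
      · intro hq
        exact Or.inr ⟨q, hq, rfl⟩
      · rintro (h | ⟨q', hq', he⟩)
        · exact absurd h (io_ne q)
        · rw [← io_inj he]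
          exact hq'
    rw [e, ← hr]
    have h1 : IsClosed (range (Φ₂ ∘ (Φ₁ ∘ K))) := by
      have h2 : range (Φ₂ ∘ (Φ₁ ∘ K)) = (Φ₂ ∘ (Φ₁ ∘ K)) '' Icc 0 1 := by
        ext x
        constructor
        · rintro ⟨l, rfl⟩
          refine ⟨Int.fract l, ⟨Int.fract_nonneg l, (Int.fract_lt_one l).le⟩, ?_⟩
          have h3 : Function.Periodic (Φ₂ ∘ (Φ₁ ∘ K)) 1 := hK2.per
          have h4 := h3.int_mul ⌊l⌋ (Int.fract l)
          rw [mul_one, Int.fract_add_floor] at h4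
          exact h4.symm
        · rintro ⟨l, -, rfl⟩
          exact ⟨l, rfl⟩
      rw [h2]
      exact (isCompact_Icc.image hK2.smooth.continuous).isClosed
    exact h1.preimage io_smooth.continuous
  have hdB : Disjoint (io ⁻¹' ((Φ₁.trans Φ₂) '' B)) (range k) := by
    rw [Set.disjoint_left]
    rintro q ⟨y, hy, he⟩ hq
    have h1 : io q ∈ Hat (range k) := Or.inr ⟨q, hq, rfl⟩
    rw [← hr] at h1
    obtain ⟨l, hl⟩ := h1
    have h2 : Φ₂ (Φ₁ y) = Φ₂ (Φ₁ (K l)) := he.trans hl.symm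
    exact Set.disjoint_left.1 hBK hy ⟨l, (Φ₁.injective (Φ₂.injective h2)).symm⟩
  refine ⟨k, T, io ⁻¹' ((Φ₁.trans Φ₂) '' B), hk, hBc, hdB, ?_⟩
  intro R hR
  have hO : IsOpen ((io ⁻¹' ((Φ₁.trans Φ₂) '' B) ∪ range k)ᶜ) := (hBc.isClosed.union hkc).isOpen_compl
  obtain ⟨F, hF, hFO⟩ := ring_move hO (R₁ := 1) (R₂ := R) one_pos (by linarith) (by
    intro w hw
    have h1 : 1 ≤ ‖w‖ := by
      rw [segment_eq_Icc hR] at hw
      exact hw.1
    rintro (h | h)
    · exact hannB w h1 h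
    · exact hannK w h1 h)
  obtain ⟨Φ₃, t1, t2⟩ := ext_move io_ld io_inj hF
  have hfix : ∀ x ∈ (io '' (io ⁻¹' ((Φ₁.trans Φ₂) '' B)) ∪ Hat (range k) : Set S3), Φ₃ x = x := by
    intro x hx
    apply t2
    rintro ⟨q, hq, rfl⟩
    apply hq
    rcases hx with ⟨q', hq', he⟩ | hx
    · rw [← io_inj he]
      exact Or.inl hq'
    · rcases hx with h | ⟨q', hq', he⟩
      · exact absurd h (io_ne q)
      · rw [← io_inj he]
        exact Or.inr hq'
  refine ⟨(Φ₁.trans Φ₂).trans Φ₃, ?_, ?_, ?_, ?_, ?_⟩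
  · have e1 : (Φ₁.trans Φ₂) '' Hat KNT.U = io '' Og 1 := by
      ext x
      constructor
      · rintro ⟨y, hy, rfl⟩
        have h1 : Φ₁ y ∈ io '' Og 1 := by
          rw [ring_iff, ← p2, ← hatU_iff]
          exact hy
        show Φ₂ (Φ₁ y) ∈ _
        rw [s2 _ ((ring_iff _).1 h1).2]
        exact h1
      · intro hx
        obtain ⟨y, rfl⟩ := Φ₁.surjective x
        refine ⟨y, ?_, ?_⟩
        · rw [hatU_iff, p2, ← ring_iff]
          exact hx
        · show Φ₂ (Φ₁ y) = Φ₁ y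
          exact s2 _ ((ring_iff _).1 hx).2
    have e2 : ((Φ₁.trans Φ₂).trans Φ₃) '' Hat KNT.U = Φ₃ '' ((Φ₁.trans Φ₂) '' Hat KNT.U) := by
      rw [image_image]
      rfl
    rw [e2, e1, image_image]
    rw [← hFO, image_image]
    refine image_congr fun q _ => ?_
    exact t1 q
  · have e2 : ((Φ₁.trans Φ₂).trans Φ₃) '' range K = Φ₃ '' range (Φ₂ ∘ (Φ₁ ∘ K)) := by
      rw [← range_comp, ← range_comp]
      rfl
    rw [e2, hr]
    have e3 : Φ₃ '' Hat (range k) = id '' Hat (range k) := image_congr fun x hx => hfix x (Or.inr hx)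
    rw [e3, image_id]
  · have e2 : ((Φ₁.trans Φ₂).trans Φ₃) '' B = Φ₃ '' ((Φ₁.trans Φ₂) '' B) := by
      rw [image_image]
      rfl
    have e3 : Φ₃ '' ((Φ₁.trans Φ₂) '' B) = id '' ((Φ₁.trans Φ₂) '' B) :=
      image_congr fun x hx => hfix x (Or.inl (hBi.symm ▸ hx))
    rw [e2, e3, image_id]
    exact hBi.symm
  · rw [Set.disjoint_left]
    rintro q hq ⟨h1, h2⟩
    have e : q = (q.1, 0) := Prod.ext rfl h2
    rw [e] at hq
    exact hannB q.1 (by rw [h1]; exact hR) hq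
  · rw [Set.disjoint_left]
    rintro q hq ⟨h1, h2⟩
    have e : q = (q.1, 0) := Prod.ext rfl h2
    rw [e] at hq
    exact hannK q.1 (by rw [h1]; exact hR) hq

end Pool.Agent.LKR
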