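import Pool.Agent.LKR.Split

/-!
# LKR/Rel: every link is equivalent to a split link

`Rel S S'`: the labelled links `S`, `S'` carry the same monotone properties (which are invariant under permutations of the labels).
`split_rel`: every labelled link is equivalent to the axis and a part in a small ball, or the axis, the ring and a part in a small ball.
-/

open scoped Manifold ContDiff Topology
open Set Filter
open Complex (I)
open Pool.Agent.RSG (E4 S3)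
open Pool.Agent.CLG (io oi pol EmbS io_inj io_smooth emb_comp Lng)
open Pool.Agent.KNH (Hat)
open Pool.Agent.KNT (CD U)
open Pool.Agent.PTH (SP ISP)
open Pool.Agent.LKF
open Pool.Agent.LKH (LinkC Good Hp)

namespace Pool.Agent.LKR

universe u

/-- invariance under permutations of the labels -/
def PInv {ι : Type} (Q : (ι → ℝ × ℂ × ℝ → SP) → Prop) : Prop :=
  ∀ (σ : Equiv.Perm ι) (κ : ι → ℝ × ℂ × ℝ → SP), Q (fun i => κ (σ i)) → Q κ

/-- The labelled links carry the same properties. -/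
def Rel {ι : Type} (S S' : ι → Set S3) : Prop :=
  ∀ Q : (ι → ℝ × ℂ × ℝ → SP) → Prop, MonoF.{u} ISP Q → PInv Q → (LS Q S ↔ LS Q S')

/-- labelled links -/
def Lk {ι : Type} (S : ι → Set S3) : Prop := LS (fun _ => True) S

theorem mono_true {ι : Type} : MonoF.{u} ISP (fun _ : ι → ℝ × ℂ × ℝ → SP => True) := by
  intro κ κ' _ _ _ _
  trivial

theorem ls_lk {ι : Type} {Q : (ι → ℝ × ℂ × ℝ → SP) → Prop} {S : ι → Set S3} (h : LS Q S) : Lk S := by
  obtain ⟨c, κ, h1, h2, h3, h4, -⟩ := h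
  exact ⟨c, κ, h1, h2, h3, h4, trivial⟩

theorem Rel.trans {ι : Type} {S S' S'' : ι → Set S3} (h : Rel.{u} S S') (h' : Rel.{u} S' S'') : Rel.{u} S S'' :=
  fun Q hQ hP => (h Q hQ hP).trans (h' Q hQ hP)

theorem ls_perm {ι : Type} {Q : (ι → ℝ × ℂ × ℝ → SP) → Prop} (hQ : PInv Q) (σ : Equiv.Perm ι) {S : ι → Set S3}
    (h : LS Q (fun i => S (σ i))) : LS Q S := by
  obtain ⟨c, κ, h1, h2, h3, h4, h5⟩ := h
  refine ⟨fun i => c (σ.symm i), fun i => κ (σ.symm i), ⟨fun i => h1.thick _, ?_⟩, fun i => h2 _, fun i l => h3 _ l,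
    fun i => ?_, ?_⟩
  · intro i i' l v t l' v' t' hv hv' he
    have h6 := h1.disj _ _ l v t l' v' t' hv hv' he
    exact σ.symm.injective h6
  · rw [h4]
    show S (σ (σ.symm i)) = S i
    rw [Equiv.apply_symm_apply]
  · apply hQ σ
    have h6 : (fun i => κ (σ.symm (σ i))) = κ := by
      funext i
      rw [Equiv.symm_apply_apply]
    show Q (fun i => κ (σ.symm (σ i)))
    rw [h6]
    exact h5

variable {ι : Type} [Finite ι]

theorem ls_match {S S' : ι → Set S3} (hS : Lk S) (hS' : Lk S') (hU : (⋃ i, S i) = ⋃ i, S' i) :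
    ∃ σ : Equiv.Perm ι, ∀ i, S i = S' (σ i) := by
  obtain ⟨c, hc, hcr, hcd⟩ := lnk_circ hS
  obtain ⟨c', hc', hcr', hcd'⟩ := lnk_circ hS'
  have hpre : ∀ i, IsPreconnected (S i) ∧ (S i).Nonempty := by
    intro i
    rw [← hcr i]
    exact ⟨isPreconnected_range (hc i).smooth.continuous, range_nonempty _⟩
  have hpre' : ∀ i, IsPreconnected (S' i) ∧ (S' i).Nonempty := by
    intro i
    rw [← hcr' i]
    exact ⟨isPreconnected_range (hc' i).smooth.continuous, range_nonempty _⟩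
  have h1 : ∀ i, ∃ m, S i = S' m := by
    intro i
    obtain ⟨m, -, hm⟩ := LS_conn hS' (hpre i).1 (hpre i).2 (T := univ) (by
      rw [biUnion_univ, ← hU]
      exact subset_iUnion S i)
    obtain ⟨k, -, hk⟩ := LS_conn hS (hpre' m).1 (hpre' m).2 (T := univ) (by
      rw [biUnion_univ, hU]
      exact subset_iUnion S' m)
    have h2 : i = k := by
      by_contra h
      obtain ⟨x, hx⟩ := (hpre i).2
      exact Set.disjoint_left.1 (hcd i k h) hx (hk (hm hx))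
    refine ⟨m, Subset.antisymm hm ?_⟩
    rw [h2]
    exact hk
  choose f hf using h1
  have hinj : Function.Injective f := by
    intro i k h
    by_contra hik
    obtain ⟨x, hx⟩ := (hpre i).2
    refine Set.disjoint_left.1 (hcd i k hik) hx ?_
    rw [hf k, ← h, ← hf i]
    exact hx
  exact ⟨Equiv.ofBijective f (Finite.injective_iff_bijective.1 hinj), hf⟩

theorem lab_union {S : ι → Set S3} {i₀ : ι} {A B : Set (ℂ × ℝ)} (h0 : S i₀ = Hat A)
    (hB : (⋃ i ∈ {i | i ≠ i₀}, S i) = io '' B) : (⋃ i, S i) = Hat A ∪ io '' B := by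
  rw [← h0, ← hB]
  ext x
  constructor
  · intro hx
    obtain ⟨i, hi⟩ := mem_iUnion.1 hx
    by_cases h : i = i₀
    · left
      rw [← h]
      exact hi
    · right
      exact mem_iUnion₂.2 ⟨i, h, hi⟩
  · rintro (hx | hx)
    · exact mem_iUnion.2 ⟨i₀, hx⟩
    · obtain ⟨i, -, hi⟩ := mem_iUnion₂.1 hx
      exact mem_iUnion.2 ⟨i, hi⟩

theorem lab_iff {Q : (ι → ℝ × ℂ × ℝ → SP) → Prop} (hP : PInv Q) {S : ι → Set S3} (hS : Lk S) {i₀ : ι}
    {A B : Set (ℂ × ℝ)} (h0 : S i₀ = Hat A) (hB : (⋃ i ∈ {i | i ≠ i₀}, S i) = io '' B) :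
    LS Q S ↔ LQ Q A B := by
  constructor
  · intro h
    exact ⟨i₀, S, h0, hB, h⟩
  · rintro ⟨i₁, S', h0', hB', hS'⟩
    obtain ⟨σ, hσ⟩ := ls_match (ls_lk hS') hS (by rw [lab_union h0' hB', lab_union h0 hB])
    apply ls_perm hP σ
    have h1 : (fun i => S (σ i)) = S' := by
      funext i
      exact (hσ i).symm
    rw [h1]
    exact hS'

/-- the moves -/
theorem rel_peq {S : ι → Set S3} (hS : Lk S) {i₀ : ι} {A B A' B' : Set (ℂ × ℝ)} (h0 : S i₀ = Hat A)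
    (hB : (⋃ i ∈ {i | i ≠ i₀}, S i) = io '' B) (h : PEq A B A' B') :
    ∃ (S' : ι → Set S3) (i₁ : ι), Lk S' ∧ S' i₁ = Hat A' ∧ (⋃ i ∈ {i | i ≠ i₁}, S' i) = io '' B' ∧ Rel.{u} S S' := by
  obtain ⟨i₁, S', h1, h2, h3⟩ := (LQ_PEq mono_true.{0} h).1 ⟨i₀, S, h0, hB, hS⟩
  refine ⟨S', i₁, h3, h1, h2, fun Q hQ hP => ?_⟩
  rw [lab_iff hP hS h0 hB, lab_iff hP h3 h1 h2]
  exact LQ_PEq hQ h

/-- diffeomorphisms of the sphere -/
theorem rel_diffeo (S : ι → Set S3) (Φ : S3 ≃ₘ⟮𝓡 3, 𝓡 3⟯ S3) : Rel.{u} S (fun i => Φ '' S i) := by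
  intro Q hQ _
  constructor
  · intro h
    exact LS_diffeo hQ h Φ
  · intro h
    have h1 := LS_diffeo hQ h Φ.symm
    have h2 : (fun i => Φ.symm '' (Φ '' S i)) = S := by
      funext i
      rw [← image_comp]
      have h3 : (Φ.symm : S3 → S3) ∘ Φ = id := by
        funext x
        exact Φ.symm_apply_apply x
      rw [h3, image_id]
    have h3 : LS Q (fun i => Φ.symm '' (Φ '' S i)) := h1
    rw [h2] at h3
    exact h3

theorem lk_link {S : ι → Set S3} (hS : Lk S) {i₀ : ι} {A B : Set (ℂ × ℝ)} (h0 : S i₀ = Hat A)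
    (hB : (⋃ i ∈ {i | i ≠ i₀}, S i) = io '' B) : LinkC B ∧ Disjoint A B :=
  lq_link (Q := fun _ => True) ⟨i₀, S, h0, hB, hS⟩

/-- no crossing -/
theorem rel_zero {S : ι → Set S3} (hS : Lk S) {i₀ : ι} {B : Set (ℂ × ℝ)} (h0 : S i₀ = Hat U)
    (hB : (⋃ i ∈ {i | i ≠ i₀}, S i) = io '' B) (hd : Disjoint B Hc)
    {r : ℝ} (hr : 0 < r) : ∃ S', Lk S' ∧ Spl1 r S' ∧ Rel.{u} S S' := by
  have hc : IsCompact B := linkC_compact (lk_link hS h0 hB).1
  obtain ⟨D, hD⟩ := hc.isBounded.subset_closedBall (0 : ℂ × ℝ)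
  obtain ⟨F, hF, hFB⟩ := squeeze hc hd (R := max D 1 + 1) (t := 1 / 2) (r := r) (by norm_num)
    (by
      have := le_max_right D 1
      linarith)
    (fun q hq => by
      have h1 := mem_closedBall_zero_iff.1 (hD hq)
      have h2 := le_max_left D 1
      linarith) hr
  have hU : F '' U = U := by
    apply hF.image_disj
    rw [Set.disjoint_left]
    rintro q hq ⟨-, h1⟩
    exact h1 (hc_eq.2 (Or.inl hq))
  have h1 := PEq.diff U B (hF.mono (subset_univ _))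
  rw [hU] at h1
  obtain ⟨S', i₁, h2, h3, h4, h5⟩ := rel_peq.{u} hS h0 hB h1
  refine ⟨S', h2, ⟨i₁, h3, fun i hi => ?_⟩, h5⟩
  have h6 : S' i ⊆ ⋃ i ∈ {i | i ≠ i₁}, S' i := subset_biUnion_of_mem (u := S') (show i ∈ {i | i ≠ i₁} from hi)
  rw [h4] at h6
  exact h6.trans (image_mono hFB)

/-- the axis, a ring, and a part off the half plane -/
theorem rel_ring {S : ι → Set S3} (hS : Lk S) {i₀ : ι} {B : Set (ℂ × ℝ)} {R : ℝ} (h0 : S i₀ = Hat U)
    (hB : (⋃ i ∈ {i | i ≠ i₀}, S i) = io '' (B ∪ Og R)) (hc : IsCompact B) (hd : Disjoint B Hc) (hR : 1 ≤ R)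
    (hBR : ∀ q ∈ B, ‖q‖ < R) {r : ℝ} (hr : 0 < r) : ∃ S', Lk S' ∧ Spl2 r S' ∧ Rel.{u} S S' := by
  have hr' : 0 < min r (1 / 4) := lt_min hr (by norm_num)
  obtain ⟨F, hF, hFB⟩ := squeeze hc hd (R := R) (t := 1 / 2) (r := min r (1 / 4)) (by norm_num)
    (by linarith) hBR hr'
  have hU : F '' U = U := by
    apply hF.image_disj
    rw [Set.disjoint_left]
    rintro q hq ⟨-, h1⟩
    exact h1 (hc_eq.2 (Or.inl hq))
  have hO : F '' Og R = Og R := by
    apply hF.image_disj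
    rw [Set.disjoint_left]
    rintro q hq ⟨h1, -⟩
    have h2 : ‖q‖ < R := h1
    rw [og_norm (by linarith) hq] at h2
    exact lt_irrefl _ h2
  have h1 := PEq.diff U (B ∪ Og R) (hF.mono (subset_univ _))
  rw [hU, image_union, hO] at h1
  have hOp : IsOpen (Uᶜ ∩ (Metric.closedBall (Ps (1 / 2)) (1 / 4))ᶜ) := by
    refine IsOpen.inter ?_ Metric.isClosed_closedBall.isOpen_compl
    exact (isClosed_eq continuous_fst continuous_const).isOpen_compl
  obtain ⟨G, hG, hGO⟩ := ring_move hOp (R₁ := R) (R₂ := 1) (by linarith) one_pos (by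
    intro w hw
    rw [segment_symm, segment_eq_Icc hR] at hw
    constructor
    · intro h2
      have h3 : w = 0 := h2
      rw [h3, norm_zero] at hw
      linarith [hw.1]
    · intro h2
      have h3 : ‖w‖ ≤ 3 / 4 := ps_ball h2
      linarith [hw.1])
  have hG' := KNT.cd_of_move hG
  have hGU : G '' U = U := by
    apply hG'.image_disj
    rw [Set.disjoint_left]
    rintro q hq ⟨h1, -⟩
    exact h1 hq
  have hGB : G '' (F '' B) = F '' B := by
    apply hG'.image_disj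
    rw [Set.disjoint_left]
    rintro q hq ⟨-, h1⟩
    exact h1 (Metric.ball_subset_closedBall (Metric.ball_subset_ball (min_le_right _ _) (hFB hq)))
  have h2 := PEq.diff U (F '' B ∪ Og R) (hG'.mono (subset_univ _))
  rw [hGU, image_union, hGB, hGO] at h2
  obtain ⟨S', i₁, h3, h4, h5, h6⟩ := rel_peq.{u} hS h0 hB (h1.trans h2)
  refine ⟨S', h3, ?_, h6⟩
  obtain ⟨j₀, j₁, hj, h7, h8, h9⟩ := ring_lab' (min_le_right _ _) hFB h3 h4 h5
  exact ⟨j₀, j₁, hj, h7, h8, fun i hi hi' => (h9 i hi hi').trans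
    (image_mono (Metric.ball_subset_ball (min_le_left _ _)))⟩

/-- one crossing: rebase -/
theorem rel_one {S : ι → Set S3} (hS : Lk S) {i₀ : ι} {B : Set (ℂ × ℝ)} (h0 : S i₀ = Hat U)
    (hBS : (⋃ i ∈ {i | i ≠ i₀}, S i) = io '' B) (hB : Good B) {x : ℂ × ℝ}
    (hx : B ∩ Hp = {x}) {r : ℝ} (hr : 0 < r) : ∃ S', Lk S' ∧ (Spl1 r S' ∨ Spl2 r S') ∧ Rel.{u} S S' := by
  have hxB : x ∈ B ∩ Hp := by rw [hx]; rfl
  have h1 : io x ∈ ⋃ i ∈ {i | i ≠ i₀}, S i := by
    rw [hBS]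
    exact ⟨x, hxB.1, rfl⟩
  obtain ⟨i₁, hi₁, hxi⟩ := mem_iUnion₂.1 h1
  obtain ⟨c, hc, hcr, hcd⟩ := lnk_circ hS
  rw [← hcr i₁] at hxi
  obtain ⟨a, ha⟩ := hxi
  have hsub : ∀ i, i ≠ i₀ → S i ⊆ io '' B := by
    intro i hi
    rw [← hBS]
    exact subset_biUnion_of_mem (u := S) (show i ∈ {i | i ≠ i₀} from hi)
  obtain ⟨K, hK, hKr, hK0⟩ : ∃ K : ℝ → S3, EmbS K ∧ range K = S i₁ ∧ K 0 = io x := by
    refine ⟨fun l => c i₁ (l + a), emb_shift (hc i₁) a, ?_, ?_⟩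
    · rw [← hcr i₁]
      ext y
      constructor
      · rintro ⟨l, rfl⟩
        exact ⟨l + a, rfl⟩
      · rintro ⟨l, rfl⟩
        exact ⟨l - a, by show c i₁ (l - a + a) = c i₁ l; rw [sub_add_cancel]⟩
    · show c i₁ (0 + a) = io x
      rw [zero_add, ha]
  have hKB : ∀ l, K l ∈ io '' B := by
    intro l
    apply hsub i₁ hi₁
    rw [← hKr]
    exact mem_range_self l
  have hpg : ∀ q ∈ B, io q ∈ Pg → q = x := by
    intro q hq h2
    have h3 : q ∈ B ∩ Hp := ⟨hq, (io_pg q).1 h2⟩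
    rw [hx] at h3
    exact h3
  -- the spectators
  have hZ : IsClosed (⋃ i ∈ {i | i ≠ i₀ ∧ i ≠ i₁}, S i) := by
    apply Set.Finite.isClosed_biUnion (Set.toFinite _)
    intro i _
    exact (LS_compact hS i).isClosed
  have hZd : ∀ j, (j = i₀ ∨ j = i₁) → Disjoint (⋃ i ∈ {i | i ≠ i₀ ∧ i ≠ i₁}, S i) (S j) := by
    intro j hj
    rw [Set.disjoint_iUnion₂_left]
    rintro i ⟨hi, hi'⟩
    apply hcd
    rintro rfl
    rcases hj with h | h
    · exact hi h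
    · exact hi' h
  obtain ⟨k, T, B', hk, hB'c, hB'd, hreb⟩ := rebase hK hZ
    (by
      rw [hK0]
      exact (io_pg x).2 hxB.2)
    (crs_deriv (hB.crs x hxB) hxB.2.1 hK hK0 hKB)
    (by
      intro l hl
      rw [← h0] at hl
      refine Set.disjoint_left.1 (hcd i₁ i₀ hi₁) ?_ hl
      rw [← hKr]
      exact mem_range_self l)
    (by
      intro l hl
      obtain ⟨q, hq, hq'⟩ := hKB l
      rw [← hq'] at hl
      have h2 := hpg q hq hl
      have h3 : K 0 = K l := by rw [hK0, ← hq', h2]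
      obtain ⟨m, hm⟩ := hK.inj _ _ h3
      exact ⟨m, by rw [hm, zero_add]⟩)
    (by
      have h2 := hZd i₀ (Or.inl rfl)
      rw [h0] at h2
      exact h2)
    (by
      rw [Set.disjoint_left]
      intro y hy hy'
      obtain ⟨i, hi, hyi⟩ := mem_iUnion₂.1 hy
      obtain ⟨q, hq, rfl⟩ := hsub i hi.1 hyi
      have h2 := hpg q hq hy'
      refine Set.disjoint_left.1 (hZd i₁ (Or.inr rfl)) hy ?_
      rw [h2, ← hK0, ← hKr]
      exact mem_range_self 0)
    (by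
      rw [hKr]
      exact hZd i₁ (Or.inr rfl))
  -- the new pair
  have hk' := lng_long hk
  have hB'l : LinkC B' := by
    obtain ⟨Φ, f1, f2, f3, f4, f5⟩ := hreb 1 le_rfl
    have hS' : Lk (fun i => Φ '' S i) := (rel_diffeo.{0} S Φ _ mono_true (fun _ _ _ => trivial)).1 hS
    have h2 := sub_link hS' {i | i ≠ i₀ ∧ i ≠ i₁} (by
      rintro i ⟨hi, hi'⟩ hp
      refine Set.disjoint_left.1 (LS_disj hS' hi') hp ?_
      show pol ∈ Φ '' S i₁
      rw [← hKr, f2]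
      exact Or.inl rfl)
    have h3 : (⋃ i ∈ {i | i ≠ i₀ ∧ i ≠ i₁}, (fun i => Φ '' S i) i) = io '' B' := by
      rw [← f3, image_iUnion₂]
    rw [h3, preimage_image_eq _ io_inj] at h2
    exact h2
  obtain ⟨B'', hP, hG, hsg⟩ := peq_good hk' hB'l hB'd.symm
  obtain ⟨R₀, hR₀⟩ := far hP
  obtain ⟨D, hD⟩ := hG.cpt.isBounded.subset_closedBall (0 : ℂ × ℝ)
  obtain ⟨R, hR1, hR2, hR3⟩ : ∃ R : ℝ, 1 ≤ R ∧ R₀ < R ∧ D < R :=
    ⟨max 1 (max R₀ D) + 1, by have := le_max_left 1 (max R₀ D); linarith,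
      by have := le_max_right 1 (max R₀ D); have := le_max_left R₀ D; linarith,
      by have := le_max_right 1 (max R₀ D); have := le_max_right R₀ D; linarith⟩
  obtain ⟨Φ, f1, f2, f3, f4, f5⟩ := hreb R hR1
  have hS' : Lk (fun i => Φ '' S i) := (rel_diffeo.{0} S Φ _ mono_true (fun _ _ _ => trivial)).1 hS
  have hRel := rel_diffeo.{u} S Φ
  have g0 : Φ '' S i₁ = Hat (range k) := by rw [← hKr, f2]
  have g1 : (⋃ i ∈ {i | i ≠ i₁}, (fun i => Φ '' S i) i) = io '' (B' ∪ Og R) := by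
    have h2 : {i | i ≠ i₁} = insert i₀ {i | i ≠ i₀ ∧ i ≠ i₁} := by
      ext i
      constructor
      · intro hi
        by_cases h3 : i = i₀
        · exact Or.inl h3
        · exact Or.inr ⟨h3, hi⟩
      · rintro (h3 | h3)
        · rw [h3]
          exact fun h => hi₁ h.symm
        · exact h3.2
    rw [h2, biUnion_insert, ← image_iUnion₂, f3, h0, f1, image_union, union_comm]
  have hPR : PEq (range k) (B' ∪ Og R) U (B'' ∪ Og R) := hR₀ (Og R) (fun q hq => by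
    rw [og_norm (by linarith) hq]
    exact hR2)
  have hBR : ∀ q ∈ B'', ‖q‖ < R := fun q hq => (mem_closedBall_zero_iff.1 (hD hq)).trans_lt hR3
  rcases hsg.eq_empty_or_singleton with h2 | ⟨y, h2⟩
  · obtain ⟨S₁, j, e1, e2, e3, e4⟩ := rel_peq.{u} hS' g0 g1 hPR
    obtain ⟨S₂, h3, h4, h5⟩ := rel_ring.{u} e1 e2 e3 hG.cpt (good_hc hG h2) hR1 hBR hr
    exact ⟨S₂, h3, Or.inr h4, (hRel.trans e4).trans h5⟩
  · obtain ⟨B₃, h3, h4, h5, h6⟩ := LKH.ring_off hG h2 (R := R) (by linarith) hBR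
    obtain ⟨S₁, j, e1, e2, e3, e4⟩ := rel_peq.{u} hS' g0 g1 (hPR.trans h3)
    obtain ⟨S₂, h7, h8, h9⟩ := rel_zero.{u} e1 e2 e3 (disj_hc h5 h6) hr
    exact ⟨S₂, h7, Or.inl h8, (hRel.trans e4).trans h9⟩

/-- **Every link is equivalent to a split link**: the axis and a part in a small ball, or the axis, the ring and a part in a
small ball. -/
theorem split_rel [Nonempty ι] {S : ι → Set S3} (hS : Lk S) {r : ℝ} (hr : 0 < r) :
    ∃ S' : ι → Set S3, Lk S' ∧ (Spl1 r S' ∨ Spl2 r S') ∧ Rel.{u} S S' := by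
  obtain ⟨i₀⟩ := ‹Nonempty ι›
  obtain ⟨c, hc, hcr, hcd⟩ := lnk_circ hS
  obtain ⟨Φ, T, k, -, hk, hΦ⟩ := CLG.A0 (hc i₀)
  have hS1 : Lk (fun i => Φ '' S i) := (rel_diffeo.{0} S Φ _ mono_true (fun _ _ _ => trivial)).1 hS
  have hRel := rel_diffeo.{u} S Φ
  have h0 : Φ '' S i₀ = Hat (range k) := by
    rw [← hcr i₀, ← range_comp, ← KNH.range_LC]
    congr 1
    funext l
    exact hΦ l
  have hp : ∀ i ∈ {i | i ≠ i₀}, pol ∉ Φ '' S i := by
    intro i hi hp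
    refine Set.disjoint_left.1 (LS_disj hS1 hi) hp ?_
    show pol ∈ Φ '' S i₀
    rw [h0]
    exact Or.inl rfl
  have heq : (⋃ i ∈ {i | i ≠ i₀}, (fun i => Φ '' S i) i) = io '' (io ⁻¹' ⋃ i ∈ {i | i ≠ i₀}, (fun i => Φ '' S i) i) := by
    rw [image_preimage_eq_of_subset]
    intro y hy
    obtain ⟨i, hi, hyi⟩ := mem_iUnion₂.1 hy
    exact ⟨oi y, CLG.io_oi (fun h => hp i hi (h ▸ hyi))⟩
  have hlk := lk_link hS1 h0 heq
  obtain ⟨B', hP, hG, hsg⟩ := peq_good (lng_long hk) hlk.1 hlk.2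
  obtain ⟨S₁, j, e1, e2, e3, e4⟩ := rel_peq.{u} hS1 h0 heq hP
  rcases hsg.eq_empty_or_singleton with h2 | ⟨y, h2⟩
  · obtain ⟨S', h3, h4, h5⟩ := rel_zero.{u} e1 e2 e3 (good_hc hG h2) hr
    exact ⟨S', h3, Or.inl h4, (hRel.trans e4).trans h5⟩
  · obtain ⟨S', h3, h4, h5⟩ := rel_one.{u} e1 e2 e3 hG h2 hr
    exact ⟨S', h3, h4, (hRel.trans e4).trans h5⟩

end Pool.Agent.LKR
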