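import Pool.Agent.LKR.Sqz
import Pool.Agent.LKR.RingM
import Pool.Agent.LKR.LnC
import Pool.Agent.LKR.Lnk
import Pool.Agent.LKF.SndF
import Pool.Agent.LKH.Main

/-!
# LKR/SplA: labelled links, the two split forms
-/

open scoped Manifold ContDiff Topology
open Set Filter
open Complex (I)
open Pool.Agent.RSG (E4 S3)
open Pool.Agent.CLG (io oi pol EmbS io_inj)
open Pool.Agent.KNH (Hat)
open Pool.Agent.KNT (CD U)
open Pool.Agent.PTH (SP ISP)
open Pool.Agent.LKF
open Pool.Agent.LKH (LinkC Good Hp)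

namespace Pool.Agent.LKR

universe u

/-- One component is the axis, the others are contained in a small ball. -/
def Spl1 {ι : Type} (r : ℝ) (S : ι → Set S3) : Prop :=
  ∃ i₀, S i₀ = Hat U ∧ ∀ i, i ≠ i₀ → S i ⊆ io '' Metric.ball (Ps (1 / 2)) r

/-- Two components are the axis and the ring, the others are contained in a small ball. -/
def Spl2 {ι : Type} (r : ℝ) (S : ι → Set S3) : Prop :=
  ∃ i₀ i₁, i₁ ≠ i₀ ∧ S i₀ = Hat U ∧ S i₁ = io '' Og 1 ∧
    ∀ i, i ≠ i₀ → i ≠ i₁ → S i ⊆ io '' Metric.ball (Ps (1 / 2)) r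

variable {ι : Type} [Finite ι] {Q : (ι → ℝ × ℂ × ℝ → SP) → Prop}

theorem sub_link {S : ι → Set S3} (h : LS Q S) (T : Set ι) (hp : ∀ i ∈ T, pol ∉ S i) :
    LinkC (io ⁻¹' ⋃ i ∈ T, S i) := by
  obtain ⟨c, hc, hr, hd⟩ := lnk_circ h
  have h1 := lnk_link (ι := T) (c := fun i => c i) (fun i => hc i)
    (fun i j hij => by
      rw [hr, hr]
      exact hd i j (fun h => hij (Subtype.ext h)))
    (fun i => by
      rw [hr]
      exact hp i i.2)
  rw [biUnion_eq_iUnion]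
  simpa only [hr] using h1

theorem lq_link {A B : Set (ℂ × ℝ)} (h : LQ Q A B) : LinkC B ∧ Disjoint A B := by
  obtain ⟨i₀, S, h0, hB, hS⟩ := h
  have hd : ∀ i, i ≠ i₀ → Disjoint (S i) (S i₀) := fun i hi => LS_disj hS hi
  have hp : ∀ i ∈ {i | i ≠ i₀}, pol ∉ S i := by
    intro i hi hp
    refine Set.disjoint_left.1 (hd i hi) hp ?_
    rw [h0]
    exact Or.inl rfl
  constructor
  · have h1 := sub_link hS {i | i ≠ i₀} hp
    rw [hB, preimage_image_eq _ io_inj] at h1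
    exact h1
  · rw [Set.disjoint_left]
    intro q hq hq'
    have h1 : io q ∈ ⋃ i ∈ {i | i ≠ i₀}, S i := by
      rw [hB]
      exact ⟨q, hq', rfl⟩
    obtain ⟨i, hi, hi'⟩ := mem_iUnion₂.1 h1
    refine Set.disjoint_left.1 (hd i hi) hi' ?_
    rw [h0]
    exact Or.inr ⟨q, hq, rfl⟩

theorem hc_eq {q : ℂ × ℝ} : q ∈ Hc ↔ q ∈ U ∨ q ∈ Hp := by
  constructor
  · rintro ⟨h1, h2⟩
    rcases h2.lt_or_eq with h3 | h3
    · exact Or.inr ⟨h1, h3⟩
    · exact Or.inl (Complex.ext h1 h3)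
  · rintro (h | ⟨h1, h2⟩)
    · have h' : q.1 = 0 := h
      constructor
      · rw [h']; rfl
      · rw [h']; exact le_refl 0
    · exact ⟨h1, h2.le⟩

theorem disj_hc {B : Set (ℂ × ℝ)} (h1 : Disjoint U B) (h2 : B ∩ Hp = ∅) : Disjoint B Hc := by
  rw [Set.disjoint_left]
  intro q hq hq'
  rcases hc_eq.1 hq' with h | h
  · exact Set.disjoint_left.1 h1 h hq
  · have h3 : q ∈ B ∩ Hp := ⟨hq, h⟩
    rw [h2] at h3
    exact h3

/-- no crossing -/
theorem spl_zero (hQ : MonoF.{u} ISP Q) {B : Set (ℂ × ℝ)} (h : LQ Q U B) (hc : IsCompact B) (hd : Disjoint B Hc)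
    {r : ℝ} (hr : 0 < r) : ∃ S, LS Q S ∧ Spl1 r S := by
  obtain ⟨D, hD⟩ := hc.isBounded.subset_closedBall (0 : ℂ × ℝ)
  obtain ⟨F, hF, hFB⟩ := squeeze hc hd (R := max D 1 + 1) (t := 1 / 2) (r := r) (by norm_num)
    (by
      have := le_max_right D 1
      linarith)
    (fun q hq => by
      have h1 := mem_closedBall_zero_iff.1 (hD hq)
      have h2 := le_max_left D 1
      linarith) hr
  have hU : F '' U = U := by
    apply hF.image_disj
    rw [Set.disjoint_left]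
    rintro q hq ⟨-, h1⟩
    exact h1 (hc_eq.2 (Or.inl hq))
  have h1 := (LQ_PEq hQ (PEq.diff U B (hF.mono (subset_univ _)))).1 h
  rw [hU] at h1
  obtain ⟨i₀, S, h0, hB, hS⟩ := h1
  refine ⟨S, hS, i₀, h0, fun i hi => ?_⟩
  have h2 : S i ⊆ ⋃ i ∈ {i | i ≠ i₀}, S i := subset_biUnion_of_mem (u := S) (show i ∈ {i | i ≠ i₀} from hi)
  rw [hB] at h2
  exact h2.trans (image_mono hFB)

theorem og_conn {R : ℝ} (hR : 0 < R) : IsPreconnected (Og R) := by
  rw [og_range hR]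
  exact isPreconnected_range ((continuous_const.mul RSG.ex_smooth.continuous).prodMk continuous_const)

end Pool.Agent.LKR
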