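import Pool.Agent.LKR.SplA

/-!
# LKR/SplB: the axis, a ring, and a part off the half plane
-/

open scoped Manifold ContDiff Topology
open Set Filter
open Complex (I)
open Pool.Agent.RSG (E4 S3)
open Pool.Agent.CLG (io oi pol EmbS io_inj io_smooth)
open Pool.Agent.KNH (Hat)
open Pool.Agent.KNT (CD U)
open Pool.Agent.PTH (SP ISP)
open Pool.Agent.LKF
open Pool.Agent.LKH (LinkC Good Hp)

namespace Pool.Agent.LKR

universe u

variable {ι : Type} [Finite ι] {Q : (ι → ℝ × ℂ × ℝ → SP) → Prop}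

theorem og_norm {R : ℝ} (hR : 0 ≤ R) {q : ℂ × ℝ} (h : q ∈ Og R) : ‖q‖ = R := by
  rw [Prod.norm_def, h.1, h.2, norm_zero]
  exact max_eq_left hR

theorem ps_ball {q : ℂ × ℝ} (h : q ∈ Metric.closedBall (Ps (1 / 2)) (1 / 4)) : ‖q.1‖ ≤ 3 / 4 := by
  rw [Metric.mem_closedBall, dist_eq_norm] at h
  have h1 : ‖q.1 - ((1 / 2 : ℝ) : ℂ) * I‖ ≤ 1 / 4 := (norm_fst_le (q - Ps (1 / 2))).trans h
  have h2 : ‖((1 / 2 : ℝ) : ℂ) * I‖ = 1 / 2 := by
    rw [norm_mul, Complex.norm_I, mul_one, Complex.norm_real]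
    norm_num
  have h3 : q.1 = (q.1 - ((1 / 2 : ℝ) : ℂ) * I) + ((1 / 2 : ℝ) : ℂ) * I := by ring
  calc ‖q.1‖ = ‖(q.1 - ((1 / 2 : ℝ) : ℂ) * I) + ((1 / 2 : ℝ) : ℂ) * I‖ := by rw [← h3]
    _ ≤ ‖q.1 - ((1 / 2 : ℝ) : ℂ) * I‖ + ‖((1 / 2 : ℝ) : ℂ) * I‖ := norm_add_le _ _
    _ ≤ 3 / 4 := by rw [h2]; linarith

/-- the labels -/
theorem ring_lab' {B : Set (ℂ × ℝ)} {r : ℝ} (hr : r ≤ 1 / 4) (hB : B ⊆ Metric.ball (Ps (1 / 2)) r)
    {S : ι → Set S3} (hS : LS Q S) {i₀ : ι} (h0 : S i₀ = Hat U)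
    (hBS : (⋃ i ∈ {i | i ≠ i₀}, S i) = io '' (B ∪ Og 1)) : Spl2 r S := by
  have hO : IsPreconnected (io '' Og 1) := (og_conn one_pos).image _ io_smooth.continuous.continuousOn
  have hOn : (io '' Og 1).Nonempty := by
    refine ⟨_, ((1 : ℂ), (0 : ℝ)), ⟨?_, rfl⟩, rfl⟩
    exact norm_one
  obtain ⟨i₁, hi₁, hO1⟩ := LS_conn (Q := Q) hS hO hOn (T := {i | i ≠ i₀}) (by
    rw [hBS, image_union]
    exact subset_union_right)
  obtain ⟨c, hc, hcr, hcd⟩ := lnk_circ hS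
  have hB' : B ⊆ {q : ℂ × ℝ | ‖q.1‖ ≤ 3 / 4} := fun q hq => ps_ball (Metric.ball_subset_closedBall
    (Metric.ball_subset_ball hr (hB hq)))
  have hsub : ∀ i, i ≠ i₀ → S i ⊆ io '' (B ∪ Og 1) := by
    intro i hi
    rw [← hBS]
    exact subset_biUnion_of_mem (u := S) (show i ∈ {i | i ≠ i₀} from hi)
  have h1 : S i₁ = io '' Og 1 := by
    refine Subset.antisymm ?_ hO1
    have hK : ∀ l, c i₁ l ∈ io '' (B ∪ Og 1) := fun l => hsub i₁ hi₁ (by rw [← hcr i₁]; exact mem_range_self l)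
    have hp : ∀ l, c i₁ l ≠ pol := by
      intro l
      obtain ⟨b, -, hb⟩ := hK l
      rw [← hb]
      exact CLG.io_ne b
    have hf : Continuous fun l => ‖(oi (c i₁ l)).1‖ := by
      rw [continuous_iff_continuousAt]
      intro l
      exact continuous_norm.continuousAt.comp (continuous_fst.continuousAt.comp
        ((CLG.oi_smooth (hp l)).continuousAt.comp (hc i₁).smooth.continuous.continuousAt))
    have hval : ∀ l, (oi (c i₁ l) ∈ B ∧ ‖(oi (c i₁ l)).1‖ ≤ 3 / 4) ∨ (oi (c i₁ l) ∈ Og 1 ∧ ‖(oi (c i₁ l)).1‖ = 1) := by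
      intro l
      obtain ⟨b, hb | hb, hb'⟩ := hK l
      · left
        rw [← hb', CLG.oi_io]
        exact ⟨hb, hB' hb⟩
      · right
        rw [← hb', CLG.oi_io]
        exact ⟨hb, hb.1⟩
    obtain ⟨l₁, hl₁⟩ : ∃ l, 7 / 8 ≤ ‖(oi (c i₁ l)).1‖ := by
      obtain ⟨x, q, hq, hx⟩ := hOn
      have h2 : x ∈ S i₁ := hO1 ⟨q, hq, hx⟩
      rw [← hcr i₁] at h2
      obtain ⟨l, hl⟩ := h2
      refine ⟨l, ?_⟩
      rw [hl, ← hx, CLG.oi_io, hq.1]
      norm_num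
    have hall : ∀ l, oi (c i₁ l) ∈ Og 1 := by
      intro l
      rcases hval l with h2 | h2
      · exfalso
        obtain ⟨l', hl'⟩ := mem_range_of_exists_le_of_exists_ge (c := (7 / 8 : ℝ)) hf
          ⟨l, h2.2.trans (by norm_num)⟩ ⟨l₁, hl₁⟩
        have hl'' : ‖(oi (c i₁ l')).1‖ = 7 / 8 := hl'
        rcases hval l' with h3 | h3
        · linarith [h3.2]
        · linarith [h3.2]
      · exact h2.1
    intro x hx
    rw [← hcr i₁] at hx
    obtain ⟨l, rfl⟩ := hx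
    exact ⟨_, hall l, CLG.io_oi (hp l)⟩
  refine ⟨i₀, i₁, hi₁, h0, h1, fun i hi hi' => ?_⟩
  intro x hx
  obtain ⟨q, hq | hq, rfl⟩ := hsub i hi hx
  · exact ⟨q, hB hq, rfl⟩
  · exfalso
    refine Set.disjoint_left.1 (hcd i i₁ hi') hx ?_
    rw [h1]
    exact ⟨q, hq, rfl⟩

theorem ring_lab {B : Set (ℂ × ℝ)} {r : ℝ} (hr : r ≤ 1 / 4) (hB : B ⊆ Metric.ball (Ps (1 / 2)) r)
    (h : LQ Q U (B ∪ Og 1)) : ∃ S, LS Q S ∧ Spl2 r S := by
  obtain ⟨i₀, S, h0, hBS, hS⟩ := h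
  exact ⟨S, hS, ring_lab' hr hB hS h0 hBS⟩

/-- the axis, a ring, and a part off the half plane -/
theorem spl_ring (hQ : MonoF.{u} ISP Q) {B : Set (ℂ × ℝ)} {R : ℝ} (h : LQ Q U (B ∪ Og R)) (hc : IsCompact B)
    (hd : Disjoint B Hc) (hR : 1 ≤ R) (hBR : ∀ q ∈ B, ‖q‖ < R) {r : ℝ} (hr : 0 < r) : ∃ S, LS Q S ∧ Spl2 r S := by
  have hr' : 0 < min r (1 / 4) := lt_min hr (by norm_num)
  obtain ⟨F, hF, hFB⟩ := squeeze hc hd (R := R) (t := 1 / 2) (r := min r (1 / 4)) (by norm_num)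
    (by linarith) hBR hr'
  have hU : F '' U = U := by
    apply hF.image_disj
    rw [Set.disjoint_left]
    rintro q hq ⟨-, h1⟩
    exact h1 (hc_eq.2 (Or.inl hq))
  have hO : F '' Og R = Og R := by
    apply hF.image_disj
    rw [Set.disjoint_left]
    rintro q hq ⟨h1, -⟩
    have h2 : ‖q‖ < R := h1
    rw [og_norm (by linarith) hq] at h2
    exact lt_irrefl _ h2
  have h1 := (LQ_PEq hQ (PEq.diff U (B ∪ Og R) (hF.mono (subset_univ _)))).1 h
  rw [hU, image_union, hO] at h1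
  have hOp : IsOpen (Uᶜ ∩ (Metric.closedBall (Ps (1 / 2)) (1 / 4))ᶜ) := by
    refine IsOpen.inter ?_ Metric.isClosed_closedBall.isOpen_compl
    exact (isClosed_eq continuous_fst continuous_const).isOpen_compl
  obtain ⟨G, hG, hGO⟩ := ring_move hOp (R₁ := R) (R₂ := 1) (by linarith) one_pos (by
    intro w hw
    rw [segment_symm, segment_eq_Icc hR] at hw
    constructor
    · intro h2
      have h3 : w = 0 := h2
      rw [h3, norm_zero] at hw
      linarith [hw.1]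
    · intro h2
      have h3 : ‖w‖ ≤ 3 / 4 := ps_ball h2
      linarith [hw.1])
  have hG' := KNT.cd_of_move hG
  have hGU : G '' U = U := by
    apply hG'.image_disj
    rw [Set.disjoint_left]
    rintro q hq ⟨h1, -⟩
    exact h1 hq
  have hGB : G '' (F '' B) = F '' B := by
    apply hG'.image_disj
    rw [Set.disjoint_left]
    rintro q hq ⟨-, h1⟩
    exact h1 (Metric.ball_subset_closedBall (Metric.ball_subset_ball (min_le_right _ _) (hFB hq)))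
  have h2 := (LQ_PEq hQ (PEq.diff U (F '' B ∪ Og R) (hG'.mono (subset_univ _)))).1 h1
  rw [hGU, image_union, hGB, hGO] at h2
  obtain ⟨S, hS, i₀, i₁, hi, h3, h4, h5⟩ := ring_lab (min_le_right _ _) hFB h2
  exact ⟨S, hS, i₀, i₁, hi, h3, h4, fun i hi hi' => (h5 i hi hi').trans
    (image_mono (Metric.ball_subset_ball (min_le_left _ _)))⟩

end Pool.Agent.LKR
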