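import Pool.Agent.LKR.Crd

/-!
# LKR/Trv: a crossing is transversal for the curve in the sphere
-/

open scoped Manifold ContDiff Topology
open Set Filter
open Complex (I)
open Pool.Agent.RSG (E4 S3)
open Pool.Agent.CLG

namespace Pool.Agent.LKR

theorem trv_io : ContDiff ℝ ∞ fun q : ℂ × ℝ => (io q : E4) := by
  have hF := Fact.mk (@finrank_euclideanSpace_fin ℝ _ (3 + 1))
  exact ((contMDiff_coe_sphere (n := 3) (m := ∞)).comp io_smooth).contDiff

theorem trv_oi {K : ℝ → S3} (hK : EmbS K) {l : ℝ} (hl : K l ≠ pol) : ContDiffAt ℝ ∞ (fun l => oi (K l)) l := by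
  have h1 : ContMDiffAt 𝓘(ℝ, ℝ) 𝓘(ℝ, ℂ × ℝ) ∞ (oi ∘ K) l :=
    ContMDiffAt.comp l (oi_smooth hl) (hK.smooth l)
  exact contMDiffAt_iff_contDiffAt.1 h1

theorem crs_deriv {B : Set (ℂ × ℝ)} {x : ℂ × ℝ} (hc : LKH.Crs B x) (hx : x.1.re = 0) {K : ℝ → S3}
    (hK : EmbS K) (h0 : K 0 = io x) (hB : ∀ l, K l ∈ io '' B) :
    deriv (fun l => (K l : E4) 0) 0 ≠ 0 := by
  have hF := Fact.mk (@finrank_euclideanSpace_fin ℝ _ (3 + 1))
  intro hd
  obtain ⟨ρ, η, d, hρ, hη, hd0, hgr⟩ := hc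
  have hp : ∀ l, K l ≠ pol := by
    intro l
    obtain ⟨b, -, hb⟩ := hB l
    rw [← hb]
    exact io_ne b
  have hy : ∀ l, ContDiffAt ℝ ∞ (fun l => oi (K l)) l := fun l => trv_oi hK (hp l)
  have hio : ∀ l, io (oi (K l)) = K l := fun l => io_oi (hp l)
  have hyB : ∀ l, oi (K l) ∈ B := by
    intro l
    obtain ⟨b, hb, hb'⟩ := hB l
    rw [← hb', oi_io]
    exact hb
  have hy0 : oi (K 0) = x := by rw [h0, oi_io]
  have hcont : ContinuousAt (fun l => oi (K l)) 0 := (hy 0).continuousAt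
  have c1 : ContinuousAt (fun l => (oi (K l)).1.re) 0 :=
    Complex.continuous_re.continuousAt.comp (continuous_fst.continuousAt.comp hcont)
  have c2 : ContinuousAt (fun l => (oi (K l)).1.im) 0 :=
    Complex.continuous_im.continuousAt.comp (continuous_fst.continuousAt.comp hcont)
  have c3 : ContinuousAt (fun l => (oi (K l)).2) 0 := continuous_snd.continuousAt.comp hcont
  have e1 : ∀ᶠ l in 𝓝 (0 : ℝ), |(oi (K l)).1.re| < d := by
    have h2 : ContinuousAt (fun l => |(oi (K l)).1.re|) 0 := continuous_abs.continuousAt.comp c1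
    refine h2.eventually (gt_mem_nhds ?_)
    show |(oi (K 0)).1.re| < d
    rw [hy0, hx, abs_zero]
    exact hd0
  have e2 : ∀ᶠ l in 𝓝 (0 : ℝ), |(oi (K l)).1.im - x.1.im| < d := by
    have h2 : ContinuousAt (fun l => |(oi (K l)).1.im - x.1.im|) 0 :=
      continuous_abs.continuousAt.comp (c2.sub continuousAt_const)
    refine h2.eventually (gt_mem_nhds ?_)
    show |(oi (K 0)).1.im - x.1.im| < d
    rw [hy0, sub_self, abs_zero]
    exact hd0
  have e3 : ∀ᶠ l in 𝓝 (0 : ℝ), |(oi (K l)).2 - x.2| < d := by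
    have h2 : ContinuousAt (fun l => |(oi (K l)).2 - x.2|) 0 :=
      continuous_abs.continuousAt.comp (c3.sub continuousAt_const)
    refine h2.eventually (gt_mem_nhds ?_)
    show |(oi (K 0)).2 - x.2| < d
    rw [hy0, sub_self, abs_zero]
    exact hd0
  have hev : (fun l => oi (K l)) =ᶠ[𝓝 0] fun l =>
      ((((oi (K l)).1.re : ℂ) + (ρ (oi (K l)).1.re : ℂ) * I, η (oi (K l)).1.re) : ℂ × ℝ) := by
    filter_upwards [e1, e2, e3] with l h1 h2 h3
    obtain ⟨h4, h5⟩ := (hgr _ h1 h2 h3).1 (hyB l)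
    refine Prod.ext ?_ h5
    show (oi (K l)).1 = _
    rw [← h4]
    exact (Complex.re_add_im _).symm
  -- derivative of the real part
  have hdy : HasDerivAt (fun l => oi (K l)) (deriv (fun l => oi (K l)) 0) 0 :=
    ((hy 0).differentiableAt (by simp)).hasDerivAt
  have hu : HasDerivAt (fun l => (oi (K l)).1.re) (deriv (fun l => oi (K l)) 0).1.re 0 := by
    have h1 : HasDerivAt (fun l => (oi (K l)).1) (deriv (fun l => oi (K l)) 0).1 0 :=
      (ContinuousLinearMap.fst ℝ ℂ ℝ).hasFDerivAt.comp_hasDerivAt 0 hdy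
    exact Complex.reCLM.hasFDerivAt.comp_hasDerivAt 0 h1
  have hn : HasDerivAt (fun l => ‖(oi (K l)).1‖ ^ 2 + (oi (K l)).2 ^ 2 + 1)
      (deriv (fun l => ‖(oi (K l)).1‖ ^ 2 + (oi (K l)).2 ^ 2 + 1) 0) 0 := by
    have h1 : ContDiffAt ℝ ∞ (fun l => ‖(oi (K l)).1‖ ^ 2 + (oi (K l)).2 ^ 2 + 1) 0 :=
      (((hy 0).fst.norm_sq ℝ).add ((hy 0).snd.pow 2)).add contDiffAt_const
    exact (h1.differentiableAt (by simp)).hasDerivAt
  have hf : HasDerivAt (fun l => (K l : E4) 0) 0 0 := by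
    have h1 : ContDiff ℝ ∞ fun l => (K l : E4) :=
      ((contMDiff_coe_sphere (n := 3) (m := ∞)).comp hK.smooth).contDiff
    have h3 : ContDiff ℝ ∞ fun l => (K l : E4) 0 :=
      (EuclideanSpace.proj (𝕜 := ℝ) (0 : Fin 4)).contDiff.comp h1
    have h4 := (h3.differentiable (by simp) 0).hasDerivAt
    rw [hd] at h4
    exact h4
  have hk0 : (K 0 : E4) 0 = 0 := by
    rw [h0, crd0, hx, mul_zero, zero_div]
  have hu' : HasDerivAt (fun l => (oi (K l)).1.re) 0 0 := by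
    have h1 := (hf.mul hn).const_mul (1 / 2 : ℝ)
    rw [hk0, zero_mul, zero_mul, add_zero, mul_zero] at h1
    refine h1.congr_of_eventuallyEq (Eventually.of_forall fun l => ?_)
    show (oi (K l)).1.re = 1 / 2 * ((K l : E4) 0 * (‖(oi (K l)).1‖ ^ 2 + (oi (K l)).2 ^ 2 + 1))
    have h2 : (K l : E4) 0 = 2 * (oi (K l)).1.re / (‖(oi (K l)).1‖ ^ 2 + (oi (K l)).2 ^ 2 + 1) := by
      rw [← crd0, hio]
    rw [h2]
    have h3 : (‖(oi (K l)).1‖ ^ 2 + (oi (K l)).2 ^ 2 + 1) ≠ 0 := by positivity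
    field_simp
  have hyd : HasDerivAt (fun l => oi (K l)) 0 0 := by
    have h1 : HasDerivAt (fun l => ((((oi (K l)).1.re : ℂ) + (ρ (oi (K l)).1.re : ℂ) * I,
        η (oi (K l)).1.re) : ℂ × ℝ)) 0 0 := by
      have h2 : HasDerivAt ρ (deriv ρ (oi (K 0)).1.re) (oi (K 0)).1.re :=
        (hρ.differentiable (by simp) _).hasDerivAt
      have h3 : HasDerivAt η (deriv η (oi (K 0)).1.re) (oi (K 0)).1.re :=
        (hη.differentiable (by simp) _).hasDerivAt
      have h4 : HasDerivAt (fun l => ρ (oi (K l)).1.re) 0 0 := by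
        have h5 := h2.comp 0 hu'
        rw [mul_zero] at h5
        exact h5
      have h6 : HasDerivAt (fun l => η (oi (K l)).1.re) 0 0 := by
        have h5 := h3.comp 0 hu'
        rw [mul_zero] at h5
        exact h5
      have h7 := hu'.ofReal_comp.add (h4.ofReal_comp.mul_const I)
      rw [Complex.ofReal_zero, zero_mul, add_zero] at h7
      exact h7.prodMk h6
    exact h1.congr_of_eventuallyEq hev
  apply hK.imm 0
  have h1 : HasFDerivAt (fun q : ℂ × ℝ => (io q : E4)) (fderiv ℝ (fun q : ℂ × ℝ => (io q : E4)) (oi (K 0))) (oi (K 0)) :=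
    (trv_io.differentiable (by simp) _).hasFDerivAt
  have h2 := h1.comp_hasDerivAt 0 hyd
  rw [map_zero] at h2
  have h3 : (fun l => (K l : E4)) = (fun q : ℂ × ℝ => (io q : E4)) ∘ fun l => oi (K l) := by
    funext l
    show (K l : E4) = (io (oi (K l)) : E4)
    rw [hio]
  rw [h3]
  exact h2.deriv

end Pool.Agent.LKR
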