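import Pool.Agent.LKR.Reb
import Pool.Agent.LKR.Far
import Pool.Agent.LKR.Trv
import Pool.Agent.LKR.SplB
import Pool.Agent.LKF.Dif
import Pool.Agent.LKH.Ring
import Pool.Agent.KNS.Main

/-!
# LKR/Split: every link becomes split

`peq_good`: a long knot and a compact link become the axis and a link which crosses the half plane at most once (blocks S and H).
`spl_one`: one crossing: the component through the crossing becomes the long knot, the axis becomes a far ring.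
`split`: every labelled link becomes the axis and a part in a small ball, or the axis, the ring and a part in a small ball.
-/

open scoped Manifold ContDiff Topology
open Set Filter
open Complex (I)
open Pool.Agent.RSG (E4 S3)
open Pool.Agent.CLG (io oi pol EmbS io_inj io_smooth emb_comp Lng)
open Pool.Agent.KNH (Hat)
open Pool.Agent.KNT (CD U)
open Pool.Agent.PTH (SP ISP)
open Pool.Agent.LKF
open Pool.Agent.LKH (LinkC Good Hp)

namespace Pool.Agent.LKR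

universe u

theorem lng_long {T : ℝ} {k : ℝ → ℂ × ℝ} (h : Lng T k) : KNT.LongK (range k) :=
  ⟨k, h.smooth, h.inj, h.imm, ⟨T, h.line⟩, rfl⟩

theorem linkC_spc {B : Set (ℂ × ℝ)} (h : LinkC B) : KNS.Spc B := ⟨linkC_compact h, linkC_cover h⟩

/-- blocks S and H -/
theorem peq_good {A B : Set (ℂ × ℝ)} (hA : KNT.LongK A) (hB : LinkC B) (hd : Disjoint A B) :
    ∃ B', PEq A B U B' ∧ Good B' ∧ (B' ∩ Hp).Subsingleton := by
  obtain ⟨F, hF, hFd, hFe⟩ := KNS.S_main hA (linkC_spc hB) hd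
  obtain ⟨G, hG, hGU, hGg⟩ := LKH.gen (linkC_image hB hF) hFd
  obtain ⟨B', h1, h2, -, h3⟩ := LKH.good_main hGg
  have h4 : G '' U = U := by
    ext q
    constructor
    · rintro ⟨p, hp, rfl⟩
      rw [hGU p hp]
      exact hp
    · intro hq
      exact ⟨q, hq, hGU q hq⟩
  have h5 := PEq.diff U (F '' B) hG
  rw [h4] at h5
  exact ⟨B', (hFe.trans h5).trans h1, h2, h3⟩

theorem good_hc {B : Set (ℂ × ℝ)} (h : Good B) (h0 : B ∩ Hp = ∅) : Disjoint B Hc := disj_hc h.dis h0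

variable {ι : Type} [Finite ι] {Q : (ι → ℝ × ℂ × ℝ → SP) → Prop}

theorem emb_shift {K : ℝ → S3} (hK : EmbS K) (a : ℝ) : EmbS (fun l => K (l + a)) := by
  refine ⟨?_, ?_, ?_, ?_⟩
  · have h1 : ContMDiff 𝓘(ℝ, ℝ) 𝓘(ℝ, ℝ) ∞ fun l : ℝ => l + a :=
      (contDiff_id.add contDiff_const).contMDiff
    exact hK.smooth.comp h1
  · intro l
    show K (l + 1 + a) = K (l + a)
    rw [show l + 1 + a = (l + a) + 1 by ring]
    exact hK.per _
  · intro l l' h
    obtain ⟨m, hm⟩ := hK.inj _ _ h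
    exact ⟨m, by linarith⟩
  · intro l h
    have h2 := deriv_comp_add_const (f := fun l => (K l : E4)) a l
    rw [h2] at h
    exact hK.imm _ h

/-- one crossing: rebase -/
theorem spl_one (hQ : MonoF.{u} ISP Q) {B : Set (ℂ × ℝ)} (h : LQ Q U B) (hB : Good B) {x : ℂ × ℝ}
    (hx : B ∩ Hp = {x}) {r : ℝ} (hr : 0 < r) : ∃ S, LS Q S ∧ (Spl1 r S ∨ Spl2 r S) := by
  obtain ⟨i₀, S, h0, hBS, hS⟩ := h
  have hxB : x ∈ B ∩ Hp := by rw [hx]; rfl
  have h1 : io x ∈ ⋃ i ∈ {i | i ≠ i₀}, S i := by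
    rw [hBS]
    exact ⟨x, hxB.1, rfl⟩
  obtain ⟨i₁, hi₁, hxi⟩ := mem_iUnion₂.1 h1
  obtain ⟨c, hc, hcr, hcd⟩ := lnk_circ hS
  rw [← hcr i₁] at hxi
  obtain ⟨a, ha⟩ := hxi
  have hsub : ∀ i, i ≠ i₀ → S i ⊆ io '' B := by
    intro i hi
    rw [← hBS]
    exact subset_biUnion_of_mem (u := S) (show i ∈ {i | i ≠ i₀} from hi)
  obtain ⟨K, hK, hKr, hK0⟩ : ∃ K : ℝ → S3, EmbS K ∧ range K = S i₁ ∧ K 0 = io x := by
    refine ⟨fun l => c i₁ (l + a), emb_shift (hc i₁) a, ?_, ?_⟩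
    · rw [← hcr i₁]
      ext y
      constructor
      · rintro ⟨l, rfl⟩
        exact ⟨l + a, rfl⟩
      · rintro ⟨l, rfl⟩
        exact ⟨l - a, by show c i₁ (l - a + a) = c i₁ l; rw [sub_add_cancel]⟩
    · show c i₁ (0 + a) = io x
      rw [zero_add, ha]
  have hKB : ∀ l, K l ∈ io '' B := by
    intro l
    apply hsub i₁ hi₁
    rw [← hKr]
    exact mem_range_self l
  have hpg : ∀ q ∈ B, io q ∈ Pg → q = x := by
    intro q hq h2
    have h3 : q ∈ B ∩ Hp := ⟨hq, (io_pg q).1 h2⟩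
    rw [hx] at h3
    exact h3
  -- the spectators
  have hZ : IsClosed (⋃ i ∈ {i | i ≠ i₀ ∧ i ≠ i₁}, S i) := by
    apply Set.Finite.isClosed_biUnion (Set.toFinite _)
    intro i _
    exact (LS_compact hS i).isClosed
  have hZd : ∀ j, (j = i₀ ∨ j = i₁) → Disjoint (⋃ i ∈ {i | i ≠ i₀ ∧ i ≠ i₁}, S i) (S j) := by
    intro j hj
    rw [Set.disjoint_iUnion₂_left]
    rintro i ⟨hi, hi'⟩
    apply hcd
    rintro rfl
    rcases hj with h | h
    · exact hi h
    · exact hi' h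
  obtain ⟨k, T, B', hk, hB'c, hB'd, hreb⟩ := rebase hK hZ
    (by
      rw [hK0]
      exact (io_pg x).2 hxB.2)
    (crs_deriv (hB.crs x hxB) hxB.2.1 hK hK0 hKB)
    (by
      intro l hl
      rw [← h0] at hl
      refine Set.disjoint_left.1 (hcd i₁ i₀ hi₁) ?_ hl
      rw [← hKr]
      exact mem_range_self l)
    (by
      intro l hl
      obtain ⟨q, hq, hq'⟩ := hKB l
      rw [← hq'] at hl
      have h2 := hpg q hq hl
      have h3 : K 0 = K l := by rw [hK0, ← hq', h2]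
      obtain ⟨m, hm⟩ := hK.inj _ _ h3
      exact ⟨m, by rw [hm, zero_add]⟩)
    (by
      have h2 := hZd i₀ (Or.inl rfl)
      rw [h0] at h2
      exact h2)
    (by
      rw [Set.disjoint_left]
      intro y hy hy'
      obtain ⟨i, hi, hyi⟩ := mem_iUnion₂.1 hy
      obtain ⟨q, hq, rfl⟩ := hsub i hi.1 hyi
      have h2 := hpg q hq hy'
      refine Set.disjoint_left.1 (hZd i₁ (Or.inr rfl)) hy ?_
      rw [h2, ← hK0, ← hKr]
      exact mem_range_self 0)
    (by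
      rw [hKr]
      exact hZd i₁ (Or.inr rfl))
  -- the new pair
  have hk' := lng_long hk
  have hB'l : LinkC B' := by
    obtain ⟨Φ, f1, f2, f3, f4, f5⟩ := hreb 1 le_rfl
    have hS' : LS Q (fun i => Φ '' S i) := LS_diffeo hQ hS Φ
    have h2 := sub_link hS' {i | i ≠ i₀ ∧ i ≠ i₁} (by
      rintro i ⟨hi, hi'⟩ hp
      refine Set.disjoint_left.1 (LS_disj hS' hi') hp ?_
      show pol ∈ Φ '' S i₁
      rw [← hKr, f2]
      exact Or.inl rfl)
    have h3 : (⋃ i ∈ {i | i ≠ i₀ ∧ i ≠ i₁}, (fun i => Φ '' S i) i) = io '' B' := by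
      rw [← f3, image_iUnion₂]
    rw [h3, preimage_image_eq _ io_inj] at h2
    exact h2
  obtain ⟨B'', hP, hG, hsg⟩ := peq_good hk' hB'l hB'd.symm
  obtain ⟨R₀, hR₀⟩ := far hP
  obtain ⟨D, hD⟩ := hG.cpt.isBounded.subset_closedBall (0 : ℂ × ℝ)
  obtain ⟨R, hR1, hR2, hR3⟩ : ∃ R : ℝ, 1 ≤ R ∧ R₀ < R ∧ D < R :=
    ⟨max 1 (max R₀ D) + 1, by have := le_max_left 1 (max R₀ D); linarith,
      by have := le_max_right 1 (max R₀ D); have := le_max_left R₀ D; linarith,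
      by have := le_max_right 1 (max R₀ D); have := le_max_right R₀ D; linarith⟩
  obtain ⟨Φ, f1, f2, f3, f4, f5⟩ := hreb R hR1
  have hS' : LS Q (fun i => Φ '' S i) := LS_diffeo hQ hS Φ
  have hL : LQ Q (range k) (B' ∪ Og R) := by
    refine ⟨i₁, fun i => Φ '' S i, ?_, ?_, hS'⟩
    · show Φ '' S i₁ = _
      rw [← hKr, f2]
    · have h2 : {i | i ≠ i₁} = insert i₀ {i | i ≠ i₀ ∧ i ≠ i₁} := by
        ext i
        constructor
        · intro hi
          by_cases h3 : i = i₀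
          · exact Or.inl h3
          · exact Or.inr ⟨h3, hi⟩
        · rintro (h3 | h3)
          · rw [h3]
            exact fun h => hi₁ h.symm
          · exact h3.2
      rw [h2, biUnion_insert, ← image_iUnion₂, f3, h0, f1, image_union, union_comm]
  have hL2 : LQ Q U (B'' ∪ Og R) := (LQ_PEq hQ (hR₀ (Og R) (fun q hq => by
    rw [og_norm (by linarith) hq]
    exact hR2))).1 hL
  have hBR : ∀ q ∈ B'', ‖q‖ < R := fun q hq => (mem_closedBall_zero_iff.1 (hD hq)).trans_lt hR3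
  rcases hsg.eq_empty_or_singleton with h2 | ⟨y, h2⟩
  · obtain ⟨S', h3, h4⟩ := spl_ring hQ hL2 hG.cpt (good_hc hG h2) hR1 hBR hr
    exact ⟨S', h3, Or.inr h4⟩
  · obtain ⟨B₃, h3, h4, h5, h6⟩ := LKH.ring_off hG h2 (R := R) (by linarith) hBR
    have hL3 : LQ Q U B₃ := (LQ_PEq hQ h3).1 hL2
    obtain ⟨S', h7, h8⟩ := spl_zero hQ hL3 h4 (disj_hc h5 h6) hr
    exact ⟨S', h7, Or.inl h8⟩

/-- **Every link becomes split**: the axis and a part in a small ball, or the axis, the ring and a part in a small ball. -/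
theorem split [Nonempty ι] (hQ : MonoF.{u} ISP Q) {S : ι → Set S3} (hS : LS Q S) {r : ℝ} (hr : 0 < r) :
    ∃ S' : ι → Set S3, LS Q S' ∧ (Spl1 r S' ∨ Spl2 r S') := by
  obtain ⟨i₀⟩ := ‹Nonempty ι›
  obtain ⟨c, hc, hcr, hcd⟩ := lnk_circ hS
  obtain ⟨Φ, T, k, -, hk, hΦ⟩ := CLG.A0 (hc i₀)
  have hS1 : LS Q (fun i => Φ '' S i) := LS_diffeo hQ hS Φ
  have h0 : Φ '' S i₀ = Hat (range k) := by
    rw [← hcr i₀, ← range_comp, ← KNH.range_LC]
    congr 1
    funext l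
    exact hΦ l
  have hp : ∀ i ∈ {i | i ≠ i₀}, pol ∉ Φ '' S i := by
    intro i hi hp
    refine Set.disjoint_left.1 (LS_disj hS1 hi) hp ?_
    show pol ∈ Φ '' S i₀
    rw [h0]
    exact Or.inl rfl
  have hlink := sub_link hS1 {i | i ≠ i₀} hp
  have heq : (⋃ i ∈ {i | i ≠ i₀}, (fun i => Φ '' S i) i) = io '' (io ⁻¹' ⋃ i ∈ {i | i ≠ i₀}, (fun i => Φ '' S i) i) := by
    rw [image_preimage_eq_of_subset]
    intro y hy
    obtain ⟨i, hi, hyi⟩ := mem_iUnion₂.1 hy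
    exact ⟨oi y, CLG.io_oi (fun h => hp i hi (h ▸ hyi))⟩
  have hL : LQ Q (range k) (io ⁻¹' ⋃ i ∈ {i | i ≠ i₀}, (fun i => Φ '' S i) i) := ⟨i₀, _, h0, heq, hS1⟩
  obtain ⟨B', hP, hG, hsg⟩ := peq_good (lng_long hk) hlink (lq_link hL).2
  have hL2 : LQ Q U B' := (LQ_PEq hQ hP).1 hL
  rcases hsg.eq_empty_or_singleton with h2 | ⟨y, h2⟩
  · obtain ⟨S', h3, h4⟩ := spl_zero hQ hL2 hG.cpt (good_hc hG h2) hr
    exact ⟨S', h3, Or.inl h4⟩
  · exact spl_one hQ hL2 hG h2 hr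

end Pool.Agent.LKR
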